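import Mathlib
import Pool.Agent.L7h99.LS.Cut

/-!
Project SC (helper99), part ASM, first file: the windows with a plateau.
-/

set_option autoImplicit false

open Set Filter Topology Real

namespace Pool.Agent.L7h23.SC

/-- The angle with a plateau of length `a`. -/
noncomputable def angL (a t : ℝ) : ℝ :=
  π / 2 * (Real.smoothTransition t + Real.smoothTransition (-t - a))

theorem st_contDiff : ContDiff ℝ 1 Real.smoothTransition := Real.smoothTransition.contDiff (n := 1)

theorem angL_contDiff (a : ℝ) : ContDiff ℝ 1 (angL a) := by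
  unfold angL
  have h1 : ContDiff ℝ 1 (fun t : ℝ => -t - a) := by fun_prop
  exact contDiff_const.mul (st_contDiff.add (st_contDiff.comp h1))

variable {a : ℝ} (ha : 0 ≤ a)
include ha

theorem angL_out {t : ℝ} (h : 1 ≤ t ∨ t ≤ -a - 1) : angL a t = π / 2 := by
  unfold angL
  rcases h with h | h
  · rw [Real.smoothTransition.one_of_one_le h,
      Real.smoothTransition.zero_of_nonpos (by linarith)]
    ring
  · rw [Real.smoothTransition.one_of_one_le (x := -t - a) (by linarith),
      Real.smoothTransition.zero_of_nonpos (by linarith)]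
    ring

theorem angL_in {t : ℝ} (h1 : -a ≤ t) (h2 : t ≤ 0) : angL a t = 0 := by
  unfold angL
  rw [Real.smoothTransition.zero_of_nonpos h2, Real.smoothTransition.zero_of_nonpos (by linarith)]
  ring

theorem angL_le (t : ℝ) : angL a t ≤ π / 2 := by
  unfold angL
  have h : Real.smoothTransition t + Real.smoothTransition (-t - a) ≤ 1 := by
    rcases le_total 0 t with h | h
    · rw [Real.smoothTransition.zero_of_nonpos (x := -t - a) (by linarith)]
      linarith [Real.smoothTransition.le_one t]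
    · rw [Real.smoothTransition.zero_of_nonpos (x := t) h]
      linarith [Real.smoothTransition.le_one (-t - a)]
  have := Real.pi_pos
  nlinarith

omit ha in
theorem angL_nonneg (t : ℝ) : 0 ≤ angL a t := by
  unfold angL
  have := Real.smoothTransition.nonneg t
  have := Real.smoothTransition.nonneg (-t - a)
  positivity

omit ha in
theorem angL_diff (t : ℝ) : HasDerivAt (angL a) (deriv (angL a) t) t :=
  (((angL_contDiff a).differentiable one_ne_zero) t).hasDerivAt

theorem dangL_out {t : ℝ} (h : 1 ≤ t ∨ t ≤ -a - 1) : deriv (angL a) t = 0 := by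
  have : IsLocalMax (angL a) t := Eventually.of_forall fun s => by
    rw [angL_out ha h]; exact angL_le ha s
  exact this.deriv_eq_zero

theorem dangL_in {t : ℝ} (h1 : -a ≤ t) (h2 : t ≤ 0) : deriv (angL a) t = 0 := by
  have : IsLocalMin (angL a) t := Eventually.of_forall fun s => by
    rw [angL_in ha h1 h2]; exact angL_nonneg s
  exact this.deriv_eq_zero

omit ha in
theorem dst_bdd : ∃ C : ℝ, 0 ≤ C ∧ ∀ t, |deriv Real.smoothTransition t| ≤ C := by
  have hc : Continuous (deriv Real.smoothTransition) := st_contDiff.continuous_deriv le_rfl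
  obtain ⟨C, hC⟩ := (isCompact_Icc (a := (0:ℝ)) (b := 1)).exists_bound_of_continuousOn
    hc.continuousOn
  refine ⟨max C 0, le_max_right _ _, fun t => ?_⟩
  rcases le_or_gt t 0 with h0 | h0
  · have : IsLocalMin Real.smoothTransition t := Eventually.of_forall fun s => by
      rw [Real.smoothTransition.zero_of_nonpos h0]; exact Real.smoothTransition.nonneg s
    rw [this.deriv_eq_zero, abs_zero]
    exact le_max_right _ _
  · rcases le_or_gt 1 t with h1 | h1
    · have : IsLocalMax Real.smoothTransition t := Eventually.of_forall fun s => by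
        rw [Real.smoothTransition.one_of_one_le h1]; exact Real.smoothTransition.le_one s
      rw [this.deriv_eq_zero, abs_zero]
      exact le_max_right _ _
    · have := hC t ⟨h0.le, h1.le⟩
      rw [Real.norm_eq_abs] at this
      exact this.trans (le_max_left _ _)

omit ha in
theorem dangL_eq (t : ℝ) : deriv (angL a) t = π / 2 * (deriv Real.smoothTransition t -
    deriv Real.smoothTransition (-t - a)) := by
  have h1 : ∀ s, HasDerivAt Real.smoothTransition (deriv Real.smoothTransition s) s := fun s =>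
    ((st_contDiff.differentiable one_ne_zero) s).hasDerivAt
  have h2 : HasDerivAt (fun t : ℝ => -t - a) (-1) t := ((hasDerivAt_id t).neg).sub_const a
  have h3 := (h1 (-t - a)).comp t h2
  have h4 := ((h1 t).add h3).const_mul (π / 2)
  have h5 : HasDerivAt (angL a) (π / 2 * (deriv Real.smoothTransition t +
      deriv Real.smoothTransition (-t - a) * -1)) t := h4
  rw [h5.deriv]
  ring

omit ha in
theorem dangL_bdd : ∃ C : ℝ, 0 ≤ C ∧ ∀ a t, |deriv (angL a) t| ≤ C := by
  obtain ⟨C, h0, hC⟩ := dst_bdd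
  have hpi := Real.pi_pos
  refine ⟨π * C, by positivity, fun a t => ?_⟩
  rw [dangL_eq, abs_mul, abs_of_pos (by positivity : 0 < π / 2)]
  have h1 : |deriv Real.smoothTransition t - deriv Real.smoothTransition (-t - a)| ≤ C + C :=
    (abs_sub _ _).trans (add_le_add (hC _) (hC _))
  calc π / 2 * |deriv Real.smoothTransition t - deriv Real.smoothTransition (-t - a)| ≤
      π / 2 * (C + C) := by gcongr
    _ = π * C := by ring

omit ha in
theorem dst_compl (x : ℝ) : deriv Real.smoothTransition (1 - x) = deriv Real.smoothTransition x := by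
  have h1 : ∀ s, HasDerivAt Real.smoothTransition (deriv Real.smoothTransition s) s := fun s =>
    ((st_contDiff.differentiable one_ne_zero) s).hasDerivAt
  have h2 : HasDerivAt (fun x : ℝ => 1 - x) (-1) x := by
    simpa using (hasDerivAt_id x).const_sub 1
  have h3 : HasDerivAt (fun x => Real.smoothTransition (1 - x))
      (deriv Real.smoothTransition (1 - x) * -1) x := (h1 (1 - x)).comp x h2
  have h4 : HasDerivAt (fun x => 1 - Real.smoothTransition x) (-deriv Real.smoothTransition x) x :=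
    (h1 x).const_sub 1
  have h5 : (fun x => Real.smoothTransition (1 - x)) = fun x => 1 - Real.smoothTransition x := by
    funext x
    exact Pool.Agent.L7h99.LS.st_compl x
  rw [h5] at h3
  have h6 := h3.unique h4
  linarith

theorem angL_shift {t : ℝ} (h0 : 0 ≤ t) (h1 : t ≤ 1) : angL a (t - 1 - a) = π / 2 - angL a t := by
  unfold angL
  have e : -(t - 1 - a) - a = 1 - t := by ring
  rw [Real.smoothTransition.zero_of_nonpos (x := t - 1 - a) (by linarith),
    Real.smoothTransition.zero_of_nonpos (x := -t - a) (by linarith), e,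
    Pool.Agent.L7h99.LS.st_compl]
  ring

theorem dangL_shift {t : ℝ} (h0 : 0 ≤ t) (h1 : t ≤ 1) :
    deriv (angL a) (t - 1 - a) = -deriv (angL a) t := by
  rw [dangL_eq, dangL_eq]
  have e : -(t - 1 - a) - a = 1 - t := by ring
  have z1 : deriv Real.smoothTransition (t - 1 - a) = 0 := by
    have : IsLocalMin Real.smoothTransition (t - 1 - a) := Eventually.of_forall fun s => by
      rw [Real.smoothTransition.zero_of_nonpos (x := t - 1 - a) (by linarith)]
      exact Real.smoothTransition.nonneg s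
    exact this.deriv_eq_zero
  have z2 : deriv Real.smoothTransition (-t - a) = 0 := by
    have : IsLocalMin Real.smoothTransition (-t - a) := Eventually.of_forall fun s => by
      rw [Real.smoothTransition.zero_of_nonpos (x := -t - a) (by linarith)]
      exact Real.smoothTransition.nonneg s
    exact this.deriv_eq_zero
  rw [e, z1, z2, dst_compl]
  ring

omit ha

/-- The window function number `w` of the density level, with `L` unit steps. -/
noncomputable def wf (L : ℕ) (ω c : ℝ) (w : ℕ) (r : ℝ) : ℝ :=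
  if 0 < r then Real.cos (angL (L - 1) (Real.log r / ω - c + w * L)) else 0

variable {L : ℕ} {ω c : ℝ} {w : ℕ}

theorem wf_zero (hL : 1 ≤ L) {r : ℝ} (h : 1 ≤ Real.log r / ω - c + w * L ∨
    Real.log r / ω - c + w * L ≤ -L) : wf L ω c w r = 0 := by
  have hL' : (1 : ℝ) ≤ L := by exact_mod_cast hL
  unfold wf
  split_ifs
  · rw [angL_out (by linarith) (by
      rcases h with h | h
      · left; exact h
      · right; linarith), Real.cos_pi_div_two]
  · rfl

theorem wf_nonpos {r : ℝ} (h : r ≤ 0) : wf L ω c w r = 0 := by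
  unfold wf
  rw [if_neg (not_lt.2 h)]

theorem wf_small (hL : 1 ≤ L) (hω : 0 < ω) {r : ℝ}
    (h : r < Real.exp (ω * (c - w * L - L))) : wf L ω c w r = 0 := by
  rcases le_or_gt r 0 with h0 | h0
  · exact wf_nonpos h0
  · refine wf_zero hL (Or.inr ?_)
    have h1 : Real.log r < ω * (c - w * L - L) := (Real.log_lt_iff_lt_exp h0).2 h
    have h2 : Real.log r / ω < c - w * L - L := by
      rw [div_lt_iff₀ hω]; linarith
    linarith

theorem wf_deriv {r : ℝ} (h : 0 < r) :
    HasDerivAt (wf L ω c w) (-Real.sin (angL (L - 1) (Real.log r / ω - c + w * L)) *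
      (deriv (angL (L - 1)) (Real.log r / ω - c + w * L) * (r⁻¹ / ω))) r := by
  have h1 : HasDerivAt (fun r => Real.log r / ω - c + w * L) (r⁻¹ / ω) r :=
    (((Real.hasDerivAt_log h.ne').div_const ω).sub_const c).add_const _
  have h2 := ((angL_diff (a := (L:ℝ) - 1) (Real.log r / ω - c + w * L)).comp r h1).cos
  refine h2.congr_of_eventuallyEq ?_
  filter_upwards [lt_mem_nhds h] with s hs
  unfold wf
  rw [if_pos hs]
  rfl

theorem wf_contDiff (hL : 1 ≤ L) (c : ℝ) (hω : 0 < ω) (w : ℕ) : ContDiff ℝ 1 (wf L ω c w) := by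
  rw [contDiff_iff_contDiffAt]
  intro r
  rcases le_or_gt r 0 with h0 | h0
  · have : wf L ω c w =ᶠ[𝓝 r] fun _ => 0 := by
      filter_upwards [gt_mem_nhds (h0.trans_lt (Real.exp_pos (ω * (c - w * L - L))))] with s hs
      exact wf_small hL hω hs
    exact contDiffAt_const.congr_of_eventuallyEq this
  · have : wf L ω c w =ᶠ[𝓝 r] fun s => Real.cos (angL (L - 1) (Real.log s / ω - c + w * L)) := by
      filter_upwards [lt_mem_nhds h0] with s hs
      unfold wf
      rw [if_pos hs]
    refine ContDiffAt.congr_of_eventuallyEq ?_ this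
    have h1 : ContDiffAt ℝ 1 (fun s => Real.log s / ω - c + w * L) r :=
      (((Real.contDiffAt_log.2 h0.ne').div_const ω).sub contDiffAt_const).add contDiffAt_const
    exact Real.contDiff_cos.contDiffAt.comp r ((angL_contDiff _).contDiffAt.comp r h1)

theorem wf_deriv_zero (hL : 1 ≤ L) (c : ℝ) (hω : 0 < ω) (w : ℕ) {r : ℝ} (h : r ≤ 0) :
    HasDerivAt (wf L ω c w) 0 r := by
  have : wf L ω c w =ᶠ[𝓝 r] fun _ => 0 := by
    filter_upwards [gt_mem_nhds (h.trans_lt (Real.exp_pos (ω * (c - w * L - L))))] with s hs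
    exact wf_small hL hω hs
  exact (hasDerivAt_const r (0:ℝ)).congr_of_eventuallyEq this

theorem wf_sq_le (L : ℕ) (ω c : ℝ) (w : ℕ) (r : ℝ) : wf L ω c w r ^ 2 ≤ 1 := by
  unfold wf
  split_ifs
  · exact Real.cos_sq_le_one _
  · norm_num

/-- only two windows see a point -/
theorem far {L : ℕ} (hL : 1 ≤ L) {s : ℝ} (hs : 0 ≤ s) {w : ℕ} (h1 : w ≠ ⌊s / L⌋₊)
    (h2 : w ≠ ⌊s / L⌋₊ + 1) : 1 ≤ w * L - s ∨ w * L - s ≤ -(L : ℝ) := by
  have hL' : (1 : ℝ) ≤ L := by exact_mod_cast hL
  have hL0 : (0 : ℝ) < L := by linarith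
  set p := ⌊s / L⌋₊ with hp
  have hp1 : (p : ℝ) ≤ s / L := Nat.floor_le (by positivity)
  have hp2 : s / L < p + 1 := Nat.lt_floor_add_one _
  rw [le_div_iff₀ hL0] at hp1
  rw [div_lt_iff₀ hL0] at hp2
  rcases lt_or_gt_of_ne h1 with h | h
  · right
    have : (w : ℝ) + 1 ≤ p := by exact_mod_cast h
    nlinarith
  · left
    have h4 : p + 2 ≤ w := by omega
    have : (p : ℝ) + 2 ≤ w := by exact_mod_cast h4
    nlinarith

/-- The one-dimensional inequality behind the localization. -/
theorem imsL {L : ℕ} (hL : 1 ≤ L) {ω C : ℝ} (hω : 0 < ω) (hC : ∀ a t, |deriv (angL a) t| ≤ C) {A B : ℝ}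
    (hB : 0 ≤ B) (hAB : B * ω ≤ 4 * A) {t₀ : ℝ} (ht : 0 ≤ t₀) (M : ℕ) :
    ∑ w ∈ Finset.range M, (Real.cos (angL (L - 1) (w * L - t₀)) ^ 2 * A -
      Real.cos (angL (L - 1) (w * L - t₀)) * Real.sin (angL (L - 1) (w * L - t₀)) *
        deriv (angL (L - 1)) (w * L - t₀) * B +
        Real.sin (angL (L - 1) (w * L - t₀)) ^ 2 * deriv (angL (L - 1)) (w * L - t₀) ^ 2 * B / ω) ≤
      A * (1 + 4 * C ^ 2 / ω ^ 2) := by
  have hL' : (1 : ℝ) ≤ L := by exact_mod_cast hL
  have hL0 : (0 : ℝ) < L := by linarith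
  have ha : (0 : ℝ) ≤ L - 1 := by linarith
  set g : ℕ → ℝ := fun w => (Real.cos (angL (L - 1) (w * L - t₀)) ^ 2 * A -
      Real.cos (angL (L - 1) (w * L - t₀)) * Real.sin (angL (L - 1) (w * L - t₀)) *
        deriv (angL (L - 1)) (w * L - t₀) * B +
        Real.sin (angL (L - 1) (w * L - t₀)) ^ 2 * deriv (angL (L - 1)) (w * L - t₀) ^ 2 * B / ω) with hg
  set p := ⌊t₀ / L⌋₊ with hp
  have hp1 : (p : ℝ) ≤ t₀ / L := Nat.floor_le (by positivity)
  have hp2 : t₀ / L < p + 1 := Nat.lt_floor_add_one _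
  rw [le_div_iff₀ hL0] at hp1
  rw [div_lt_iff₀ hL0] at hp2
  have hA : 0 ≤ A := by nlinarith
  have hz : ∀ w, w ≠ p → w ≠ p + 1 → g w = 0 := by
    intro w h1 h2
    have h3 := far hL ht h1 h2
    have h3' : 1 ≤ (w : ℝ) * L - t₀ ∨ (w : ℝ) * L - t₀ ≤ -((L : ℝ) - 1) - 1 := by
      rcases h3 with h | h
      · left; exact h
      · right; linarith
    simp only [hg]
    rw [angL_out ha h3', dangL_out ha h3', Real.cos_pi_div_two]
    ring
  have hnn : ∀ w, 0 ≤ g w := by
    intro w
    simp only [hg]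
    set x := Real.cos (angL (L - 1) (w * L - t₀))
    set y := Real.sin (angL (L - 1) (w * L - t₀)) * deriv (angL (L - 1)) (w * L - t₀)
    have e : x ^ 2 * A - x * Real.sin (angL (L - 1) (w * L - t₀)) * deriv (angL (L - 1)) (w * L - t₀) * B +
        Real.sin (angL (L - 1) (w * L - t₀)) ^ 2 * deriv (angL (L - 1)) (w * L - t₀) ^ 2 * B / ω =
        x ^ 2 * (A - B * ω / 4) + B / ω * (x * ω / 2 - y) ^ 2 := by
      simp only [y]
      field_simp
      ring
    rw [e]
    have : 0 ≤ A - B * ω / 4 := by linarith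
    positivity
  rw [Pool.Agent.L7h99.LS.sum_two g p hz M]
  have hle : (if p < M then g p else 0) + (if p + 1 < M then g (p + 1) else 0) ≤
      g p + g (p + 1) := by
    have := hnn p
    have := hnn (p + 1)
    split_ifs <;> linarith
  refine hle.trans ?_
  set t : ℝ := ((p : ℝ) + 1) * L - t₀ with htd
  have ht0 : 0 ≤ t := by linarith
  have e1 : (p : ℝ) * L - t₀ = t - 1 - (L - 1) := by rw [htd]; ring
  have e2 : ((p + 1 : ℕ) : ℝ) * L - t₀ = t := by rw [htd]; push_cast; ring
  simp only [hg]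
  rw [e1, e2]
  rcases le_or_gt t 1 with ht1 | ht1
  · rw [angL_shift ha ht0 ht1, dangL_shift ha ht0 ht1, Real.cos_pi_div_two_sub,
      Real.sin_pi_div_two_sub]
    have hsc := Real.sin_sq_add_cos_sq (angL (L - 1) t)
    set x := Real.cos (angL (L - 1) t)
    set y := Real.sin (angL (L - 1) t)
    set D := deriv (angL (L - 1)) t with hDdef
    have e3 : y ^ 2 * A - y * x * -D * B + x ^ 2 * (-D) ^ 2 * B / ω +
        (x ^ 2 * A - x * y * D * B + y ^ 2 * D ^ 2 * B / ω) =
        (y ^ 2 + x ^ 2) * (A + D ^ 2 * B / ω) := by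
      ring
    rw [e3, hsc, one_mul]
    have hD : D ^ 2 ≤ C ^ 2 := by
      rw [← sq_abs D]
      exact pow_le_pow_left₀ (abs_nonneg _) (hC _ t) 2
    have h5 : D ^ 2 * B / ω ≤ C ^ 2 * (4 * A / ω) / ω := by
      refine div_le_div_of_nonneg_right ?_ hω.le
      refine mul_le_mul hD ?_ hB (sq_nonneg _)
      rw [le_div_iff₀ hω]
      exact hAB
    calc A + D ^ 2 * B / ω ≤ A + C ^ 2 * (4 * A / ω) / ω := by linarith
      _ = _ := by field_simp
  · have h6 : t ≤ L := by linarith
    rw [angL_in ha (t := t - 1 - (L - 1)) (by linarith) (by linarith),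
      dangL_in ha (t := t - 1 - (L - 1)) (by linarith) (by linarith),
      angL_out ha (Or.inl ht1.le), dangL_out ha (Or.inl ht1.le), Real.cos_zero, Real.sin_zero,
      Real.cos_pi_div_two]
    have h7 : 0 ≤ A * (4 * C ^ 2 / ω ^ 2) := by positivity
    have e8 : A * (1 + 4 * C ^ 2 / ω ^ 2) = A + A * (4 * C ^ 2 / ω ^ 2) := by ring
    rw [e8]
    refine le_trans (le_of_eq ?_) (le_add_of_nonneg_right h7)
    simp

theorem wf_eq {r : ℝ} (hr : 0 < r) (w : ℕ) :
    wf L ω c w r = Real.cos (angL (L - 1) (w * L - (c - Real.log r / ω))) := by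
  unfold wf
  rw [if_pos hr]
  congr 2
  ring

/-- the two windows at a point -/
theorem pair (hL : 1 ≤ L) {s : ℝ} (hs : 0 ≤ s) :
    (∀ w : ℕ, w ≠ ⌊s / L⌋₊ → w ≠ ⌊s / L⌋₊ + 1 → Real.cos (angL (L - 1) (w * L - s)) = 0) ∧
    Real.cos (angL (L - 1) ((⌊s / L⌋₊ : ℕ) * L - s)) ^ 2 +
      Real.cos (angL (L - 1) ((⌊s / L⌋₊ + 1 : ℕ) * L - s)) ^ 2 = 1 ∧
    (1 < ((⌊s / L⌋₊ + 1 : ℕ) : ℝ) * L - s →
      Real.cos (angL (L - 1) ((⌊s / L⌋₊ : ℕ) * L - s)) = 1) := by
  have hL' : (1 : ℝ) ≤ L := by exact_mod_cast hL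
  have hL0 : (0 : ℝ) < L := by linarith
  have ha : (0 : ℝ) ≤ L - 1 := by linarith
  have hfar := fun w => far hL hs (w := w)
  set p := ⌊s / L⌋₊ with hp
  have hp1 : (p : ℝ) ≤ s / L := Nat.floor_le (by positivity)
  have hp2 : s / L < p + 1 := Nat.lt_floor_add_one _
  rw [le_div_iff₀ hL0] at hp1
  rw [div_lt_iff₀ hL0] at hp2
  set t : ℝ := ((p : ℝ) + 1) * L - s with htd
  have ht0 : 0 ≤ t := by linarith
  have h6 : t ≤ L := by linarith
  have e1 : (p : ℝ) * L - s = t - 1 - (L - 1) := by rw [htd]; ring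
  have e2 : ((p + 1 : ℕ) : ℝ) * L - s = t := by rw [htd]; push_cast; ring
  refine ⟨fun w h1 h2 => ?_, ?_, ?_⟩
  · rw [angL_out ha (by
      rcases hfar w h1 h2 with h | h
      · left; exact h
      · right; linarith), Real.cos_pi_div_two]
  · rw [e1, e2]
    rcases le_or_gt t 1 with ht1 | ht1
    · rw [angL_shift ha ht0 ht1, Real.cos_pi_div_two_sub]
      exact Real.sin_sq_add_cos_sq _
    · rw [angL_in ha (t := t - 1 - (L - 1)) (by linarith) (by linarith),
        angL_out ha (Or.inl ht1.le), Real.cos_zero, Real.cos_pi_div_two]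
      norm_num
  · rw [e1, e2]
    intro ht1
    rw [angL_in ha (t := t - 1 - (L - 1)) (by linarith) (by linarith), Real.cos_zero]

/-- the sum of the squares of the windows -/
theorem wf_mass (hL : 1 ≤ L) (hω : 0 < ω) {r : ℝ} (hr : 0 < r) (hrc : Real.log r ≤ ω * c) (M : ℕ) :
    ∑ w ∈ Finset.range M, wf L ω c w r ^ 2 ≤ 1 := by
  have hs : 0 ≤ c - Real.log r / ω := by
    have : Real.log r / ω ≤ c := by rw [div_le_iff₀ hω]; linarith
    linarith
  simp only [wf_eq hr]
  set s := c - Real.log r / ω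
  obtain ⟨h1, h2, -⟩ := pair hL hs
  rw [Pool.Agent.L7h99.LS.sum_two (fun w : ℕ => Real.cos (angL (L - 1) (w * L - s)) ^ 2) ⌊s / L⌋₊
    (fun w h3 h4 => by
      show Real.cos (angL (L - 1) (w * L - s)) ^ 2 = 0
      rw [h1 w h3 h4]; norm_num) M]
  refine le_trans ?_ h2.le
  have a1 := sq_nonneg (Real.cos (angL (L - 1) ((⌊s / L⌋₊ : ℕ) * L - s)))
  have a2 := sq_nonneg (Real.cos (angL (L - 1) ((⌊s / L⌋₊ + 1 : ℕ) * L - s)))
  split_ifs <;> linarith

/-- The number of windows seeing a point. -/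
theorem count (hL : 1 ≤ L) (hω : 0 < ω) {r : ℝ} (hrc : Real.log r ≤ ω * c) (M : ℕ) :
    ∑ w ∈ Finset.range M, (if -(L:ℝ) < Real.log r / ω - c + w * L ∧
      Real.log r / ω - c + w * L < 1 then (1:ℝ) else 0) ≤ 2 := by
  have hs : 0 ≤ c - Real.log r / ω := by
    have : Real.log r / ω ≤ c := by rw [div_le_iff₀ hω]; linarith
    linarith
  set s := c - Real.log r / ω with hsd
  have e : ∀ w : ℕ, Real.log r / ω - c + w * L = w * L - s := fun w => by rw [hsd]; ring
  simp only [e]
  rw [Pool.Agent.L7h99.LS.sum_two (fun w : ℕ => if -(L:ℝ) < w * L - s ∧ w * L - s < 1 then (1:ℝ)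
    else 0) ⌊s / L⌋₊ (fun w h3 h4 => by
      show (if -(L:ℝ) < w * L - s ∧ w * L - s < 1 then (1:ℝ) else 0) = 0
      rw [if_neg]
      rintro ⟨h5, h6⟩
      rcases far hL hs h3 h4 with h | h <;> linarith) M]
  split_ifs <;> norm_num

theorem pow_lower {δ x : ℝ} (hδ : 0 < δ) (hx : 0 ≤ x) : x - δ / 2 ≤ x ^ (1 + δ) := by
  rcases hx.lt_or_eq with h | h
  · have h1 : x * (1 + δ * Real.log x) ≤ x ^ (1 + δ) := by
      rw [Real.rpow_add h, Real.rpow_one]
      refine mul_le_mul_of_nonneg_left ?_ h.le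
      rw [Real.rpow_def_of_pos h]
      have := Real.add_one_le_exp (Real.log x * δ)
      linarith
    have h2 : 1 - (x * 2)⁻¹ ≤ Real.log (x * 2) := Real.one_sub_inv_le_log_of_pos (by positivity)
    rw [Real.log_mul h.ne' (by norm_num)] at h2
    have h3 : Real.log 2 ≤ 1 := by
      have := Real.log_le_sub_one_of_pos (show (0:ℝ) < 2 by norm_num)
      linarith
    have h4 : -(1 / 2) ≤ x * Real.log x := by
      have h5 : -(x * 2)⁻¹ ≤ Real.log x := by linarith
      have h6 := mul_le_mul_of_nonneg_left h5 h.le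
      have e : x * -(x * 2)⁻¹ = -(1 / 2) := by field_simp
      rwa [e] at h6
    have h7 := mul_le_mul_of_nonneg_left h4 hδ.le
    nlinarith
  · rw [← h, Real.zero_rpow (by positivity)]
    linarith

/-- The powers of the windows, for all the shifts. -/
theorem pow_mass (hL : 1 ≤ L) (hω : 0 < ω) {δ : ℝ} (hδ : 0 < δ) {r : ℝ} (hr : 0 < r)
    (hrc : Real.log r ≤ ω * c) (M : ℕ) :
    (L : ℝ) - δ ≤ ∑ j ∈ Finset.range L, ∑ w ∈ Finset.range M,
      (wf L ω (c + j) w r ^ 2) ^ (1 + δ) ∨
    Real.log r ≤ ω * (c + L - (M - 1) * L) := by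
  have hL' : (1 : ℝ) ≤ L := by exact_mod_cast hL
  have hL0 : (0 : ℝ) < L := by linarith
  set s := c - Real.log r / ω with hsd
  have hs : 0 ≤ s := by
    have : Real.log r / ω ≤ c := by rw [div_le_iff₀ hω]; linarith
    linarith
  by_cases hall : ∀ j < L, ⌊(s + j) / L⌋₊ + 1 < M
  · left
    have hj : ∀ j ∈ Finset.range L, 1 - δ * (if ((⌊(s + j) / L⌋₊ + 1 : ℕ) : ℝ) * L - (s + j) ≤ 1
        then (1:ℝ) else 0) ≤ ∑ w ∈ Finset.range M, (wf L ω (c + j) w r ^ 2) ^ (1 + δ) := by
      intro j hj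
      have hsj : 0 ≤ s + j := by positivity
      have e : c + j - Real.log r / ω = s + j := by rw [hsd]; ring
      simp only [wf_eq hr, e]
      obtain ⟨h1, h2, h3⟩ := pair hL hsj
      have h4 := hall j (Finset.mem_range.1 hj)
      rw [Pool.Agent.L7h99.LS.sum_two (fun w : ℕ => (Real.cos (angL (L - 1) (w * L - (s + j))) ^ 2) ^
        (1 + δ)) ⌊(s + j) / L⌋₊ (fun w h5 h6 => by
          show (Real.cos (angL (L - 1) (w * L - (s + j))) ^ 2) ^ (1 + δ) = 0
          rw [h1 w h5 h6, zero_pow two_ne_zero, Real.zero_rpow (by positivity)]) M]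
      rw [if_pos (by omega : ⌊(s + j) / L⌋₊ < M), if_pos h4]
      have a1 := sq_nonneg (Real.cos (angL (L - 1) ((⌊(s + j) / L⌋₊ : ℕ) * L - (s + j))))
      have a2 := sq_nonneg (Real.cos (angL (L - 1) ((⌊(s + j) / L⌋₊ + 1 : ℕ) * L - (s + j))))
      split_ifs with h7
      · have b1 := pow_lower hδ a1
        have b2 := pow_lower hδ a2
        show 1 - δ * 1 ≤ (Real.cos (angL (L - 1) ((⌊(s + j) / L⌋₊ : ℕ) * L - (s + j))) ^ 2) ^ (1 + δ) +
          (Real.cos (angL (L - 1) ((⌊(s + j) / L⌋₊ + 1 : ℕ) * L - (s + j))) ^ 2) ^ (1 + δ)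
        linarith
      · have h8 := h3 (not_le.1 h7)
        have b2 := Real.rpow_nonneg a2 (1 + δ)
        show 1 - δ * 0 ≤ (Real.cos (angL (L - 1) ((⌊(s + j) / L⌋₊ : ℕ) * L - (s + j))) ^ 2) ^ (1 + δ) +
          (Real.cos (angL (L - 1) ((⌊(s + j) / L⌋₊ + 1 : ℕ) * L - (s + j))) ^ 2) ^ (1 + δ)
        rw [h8, one_pow, Real.one_rpow]
        linarith
    have hsum := Finset.sum_le_sum hj
    refine le_trans ?_ hsum
    rw [Finset.sum_sub_distrib, ← Finset.mul_sum, Finset.sum_const, Finset.card_range, nsmul_eq_mul,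
      mul_one, ← Finset.sum_filter, Finset.sum_const, nsmul_eq_mul, mul_one]
    have hcard : ((Finset.range L).filter fun j : ℕ =>
        ((⌊(s + j) / L⌋₊ + 1 : ℕ) : ℝ) * L - (s + j) ≤ 1).card ≤ 1 := by
      rw [Finset.card_le_one]
      have key : ∀ j j' : ℕ, j < j' → j' < L →
          ((⌊(s + j) / L⌋₊ + 1 : ℕ) : ℝ) * L - (s + j) ≤ 1 →
          ((⌊(s + j') / L⌋₊ + 1 : ℕ) : ℝ) * L - (s + j') ≤ 1 → False := by
        intro j j' h1 h2 h3 h4
        have p1 : (s + j) / L < (⌊(s + j) / L⌋₊ : ℝ) + 1 := Nat.lt_floor_add_one _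
        have p2 : (s + j') / L < (⌊(s + j') / L⌋₊ : ℝ) + 1 := Nat.lt_floor_add_one _
        rw [div_lt_iff₀ hL0] at p1 p2
        push_cast at h3 h4
        have q1 : (j:ℝ) + 1 ≤ j' := by exact_mod_cast h1
        have q2 : (j':ℝ) + 1 ≤ L := by exact_mod_cast h2
        set K := ⌊(s + j) / L⌋₊
        set K' := ⌊(s + j') / L⌋₊
        rcases le_or_gt K' K with h5 | h5
        · have h5' : (K':ℝ) ≤ K := by exact_mod_cast h5
          nlinarith
        · have h5' : (K:ℝ) + 1 ≤ K' := by exact_mod_cast h5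
          nlinarith
      intro j hj j' hj'
      simp only [Finset.mem_filter, Finset.mem_range] at hj hj'
      by_contra hne
      rcases lt_or_gt_of_ne hne with h | h
      · exact key j j' h hj'.1 hj.2 hj'.2
      · exact key j' j h hj.1 hj'.2 hj.2
    have : (((Finset.range L).filter fun j : ℕ =>
        ((⌊(s + j) / L⌋₊ + 1 : ℕ) : ℝ) * L - (s + j) ≤ 1).card : ℝ) ≤ 1 := by exact_mod_cast hcard
    nlinarith
  · right
    push Not at hall
    obtain ⟨j, hj, hM⟩ := hall
    have hp1 : (⌊(s + j) / L⌋₊ : ℝ) ≤ (s + j) / L := Nat.floor_le (by positivity)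
    rw [le_div_iff₀ hL0] at hp1
    have h1 : (M:ℝ) ≤ (⌊(s + j) / L⌋₊ : ℝ) + 1 := by exact_mod_cast hM
    have h2 : (j:ℝ) ≤ L := by exact_mod_cast hj.le
    have h3 : ((M:ℝ) - 1) * L ≤ s + L := by nlinarith
    have h4 : Real.log r = ω * (c - s) := by rw [hsd]; field_simp; ring
    rw [h4]
    exact mul_le_mul_of_nonneg_left (by linarith) hω.le

end Pool.Agent.L7h23.SC
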