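import Pool.Agent.L7h99.SC.Win
import Pool.Agent.L7h23.SC.Asm1

/-!
Project SC (helper99), part ASM: assembly over the windows.
-/

set_option autoImplicit false

open MeasureTheory Set Filter Topology Real
open scoped ENNReal

namespace Pool.Agent.L7h23.SC

open Pool.Agent.L7h99.SC Pool.Agent.L7h99.LS

variable {d : ℕ}

/-- The localization error, pointwise. -/
theorem local_errL {n : ℕ} {F : Fin n → (Fin d → ℝ) → ℝ} (hF : ∀ i, ContDiff ℝ 1 (F i))
    {L : ℕ} (hL : 1 ≤ L) {ω C c : ℝ} (hω : 0 < ω) (hC : ∀ a t, |deriv (angL a) t| ≤ C)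
    (x : Fin d → ℝ) (hc : den F x ≤ Real.exp (ω * c)) (M : ℕ) :
    ∑ w ∈ Finset.range M, ∑ k, ∑ i,
      LTd.pd k (fun x => wf L ω c w (den F x) * F i x) x ^ 2 ≤
      (1 + 4 * C ^ 2 / ω ^ 2) * ∑ k, ∑ i, LTd.pd k (F i) x ^ 2 := by
  rw [Finset.sum_comm, Finset.mul_sum]
  refine Finset.sum_le_sum fun k _ => ?_
  have hρC : ContDiff ℝ 1 (den F) := den_C1 hF
  have hA : 0 ≤ ∑ i, LTd.pd k (F i) x ^ 2 := Finset.sum_nonneg fun i _ => sq_nonneg _
  rcases (den_nonneg F x).lt_or_eq with hr | hr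
  swap
  · -- zero density
    have h1 : ∀ w ∈ Finset.range M, ∑ i,
        LTd.pd k (fun x => wf L ω c w (den F x) * F i x) x ^ 2 = 0 := by
      intro w _
      refine Finset.sum_eq_zero fun i _ => ?_
      have h2 : HasDerivAt (wf L ω c w) 0 (den F x) :=
        wf_deriv_zero hL c hω w hr.symm.le
      rw [pd_win hρC (hF i) x h2 k, wf_nonpos hr.symm.le]
      ring
    rw [Finset.sum_eq_zero h1]
    positivity
  have hrdef : den F x = ∑ i, F i x ^ 2 := rfl
  set r := den F x with hr0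
  set P := LTd.pd k (den F) x with hP
  set A := ∑ i, LTd.pd k (F i) x ^ 2 with hAdef
  set t₀ := c - Real.log r / ω with ht₀
  have ht : 0 ≤ t₀ := by
    have h1 : Real.log r ≤ ω * c := (Real.log_le_iff_le_exp hr).2 hc
    have : Real.log r / ω ≤ c := by rw [div_le_iff₀ hω]; linarith
    linarith
  have hPeq : P = 2 * ∑ i, F i x * LTd.pd k (F i) x := pd_den hF x k
  have hP4 : P ^ 2 ≤ 4 * A * r := by
    have := pd_den_sq hF x k
    rw [← hr0, ← hP, ← hAdef] at this
    linarith
  have hterm : ∀ w : ℕ, ∑ i,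
      LTd.pd k (fun x => wf L ω c w (den F x) * F i x) x ^ 2 =
      Real.cos (angL (L - 1) (w * L - t₀)) ^ 2 * A -
      Real.cos (angL (L - 1) (w * L - t₀)) * Real.sin (angL (L - 1) (w * L - t₀)) *
        deriv (angL (L - 1)) (w * L - t₀) * (P ^ 2 / (ω * r)) +
        Real.sin (angL (L - 1) (w * L - t₀)) ^ 2 * deriv (angL (L - 1)) (w * L - t₀) ^ 2 *
          (P ^ 2 / (ω * r)) / ω := by
    intro w
    have harg : Real.log r / ω - c + w * L = w * L - t₀ := by rw [ht₀]; ring
    have h2 : HasDerivAt (wf L ω c w) (-Real.sin (angL (L - 1) (w * L - t₀)) *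
        (deriv (angL (L - 1)) (w * L - t₀) * (r⁻¹ / ω))) (den F x) := by
      have := wf_deriv (L := L) (ω := ω) (c := c) (w := w) hr
      rwa [harg] at this
    have hw : wf L ω c w (den F x) = Real.cos (angL (L - 1) (w * L - t₀)) := by
      show wf L ω c w r = _
      unfold wf
      rw [if_pos hr, harg]
    have h3 : ∀ i, LTd.pd k (fun x => wf L ω c w (den F x) * F i x) x ^ 2 =
        (-Real.sin (angL (L - 1) (w * L - t₀)) * (deriv (angL (L - 1)) (w * L - t₀) * (r⁻¹ / ω)) * P) ^ 2 *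
          F i x ^ 2 +
        (2 * (-Real.sin (angL (L - 1) (w * L - t₀)) * (deriv (angL (L - 1)) (w * L - t₀) *
          (r⁻¹ / ω)) * P) * Real.cos (angL (L - 1) (w * L - t₀))) * (F i x * LTd.pd k (F i) x) +
        Real.cos (angL (L - 1) (w * L - t₀)) ^ 2 * LTd.pd k (F i) x ^ 2 := fun i => by
      rw [pd_win hρC (hF i) x h2 k, hw]
      ring
    simp only [h3]
    rw [Finset.sum_add_distrib, Finset.sum_add_distrib, ← Finset.mul_sum, ← Finset.mul_sum,
      ← Finset.mul_sum, ← hrdef, ← hAdef]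
    have h5 : ∑ i, F i x * LTd.pd k (F i) x = P / 2 := by rw [hPeq]; ring
    rw [h5]
    have hr' : r ≠ 0 := hr.ne'
    field_simp
    ring
  simp only [hterm]
  have hB : 0 ≤ P ^ 2 / (ω * r) := by positivity
  have hAB : P ^ 2 / (ω * r) * ω ≤ 4 * A := by
    have : P ^ 2 / (ω * r) * ω = P ^ 2 / r := by field_simp
    rw [this, div_le_iff₀ hr]
    exact hP4
  refine (imsL hL hω hC hB hAB ht M).trans (le_of_eq ?_)
  ring

theorem Kcl_nonneg' {d : ℕ} (hd : 1 ≤ d) : 0 ≤ LTd.Kcl d := by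
  rw [Pool.Agent.L7h76.LS.Kcl_eq (by omega)]
  have h1 : 0 < Real.Gamma ((d : ℝ) / 2 + 1) := Real.Gamma_pos_of_pos (by positivity)
  positivity

/-- One shift. -/
theorem one_shift {C : ℝ} (hC : ∀ a t, |deriv (angL a) t| ≤ C) (hd : 1 ≤ d) {L : ℕ} (hL : 1 ≤ L)
    {ω ε : ℝ} (hω : 0 < ω) (hε : 0 < ε) (hW : WinIneq d ε (ω * (L + 1))) {n : ℕ}
    {F : Fin n → (Fin d → ℝ) → ℝ} (hF : ∀ i, ContDiff ℝ 1 (F i))
    (hFc : ∀ i, HasCompactSupport (F i)) (hG : Gram1 F) {c : ℝ}
    (hρc : ∀ x, den F x ≤ Real.exp (ω * c)) (M : ℕ) :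
    LTd.Kcl d * (∫ x, (∑ w ∈ Finset.range M, (wf L ω c w (den F x) ^ 2) ^ (1 + 2 / (d:ℝ))) *
      den F x ^ (1 + 2 / (d:ℝ))) ≤
      (1 + 4 * C ^ 2 / ω ^ 2) * kin F + 3 * ε * ∫ x, den F x ^ (1 + 2 / (d:ℝ)) := by
  have hd0 : (0:ℝ) < d := by exact_mod_cast hd
  set δ : ℝ := 2 / (d:ℝ) with hδd
  have hδ : 0 < δ := by positivity
  set ρ : (Fin d → ℝ) → ℝ := den F with hρ
  have hρC : ContDiff ℝ 1 ρ := den_C1 hF
  have hρcont : Continuous ρ := hρC.continuous
  have hρs : HasCompactSupport ρ := den_supp hFc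
  have hρ0 : ∀ x, 0 ≤ ρ x := den_nonneg F
  have hcw : ∀ w, Continuous fun x => wf L ω c w (ρ x) := fun w =>
    (wf_contDiff hL c hω w).continuous.comp hρcont
  have hpc : Continuous fun x => ρ x ^ (1 + δ) :=
    hρcont.rpow_const fun x => Or.inr (by positivity)
  have hps : HasCompactSupport fun x => ρ x ^ (1 + δ) := by
    refine hρs.comp_left (g := fun r : ℝ => r ^ (1 + δ)) ?_
    exact Real.zero_rpow (by positivity)
  have hpi : Integrable fun x => ρ x ^ (1 + δ) := hpc.integrable_of_hasCompactSupport hps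
  set f : ℕ → Fin n → (Fin d → ℝ) → ℝ := fun w i x => wf L ω c w (ρ x) * F i x with hf
  set cond : ℕ → ℝ → Prop := fun w r => -(L:ℝ) < Real.log r / ω - c + w * L ∧
      Real.log r / ω - c + w * L < 1 with hcond
  set Ω : ℕ → Set (Fin d → ℝ) := fun w => {x | 0 < ρ x ∧ cond w (ρ x)} with hΩ
  have hlogm : Measurable fun x => Real.log (ρ x) := Real.measurable_log.comp hρcont.measurable
  have hcm : ∀ w, MeasurableSet {x | cond w (ρ x)} := fun w => by
    have h1 : Measurable fun x => Real.log (ρ x) / ω - c + w * L :=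
      ((hlogm.div_const ω).sub_const c).add_const _
    exact (measurableSet_lt measurable_const h1).inter (measurableSet_lt h1 measurable_const)
  have hΩm : ∀ w, MeasurableSet (Ω w) := fun w =>
    (measurableSet_lt measurable_const hρcont.measurable).inter (hcm w)
  have hΩf : ∀ w, volume (Ω w) ≠ ∞ := fun w => by
    refine ne_of_lt (lt_of_le_of_lt (measure_mono fun x hx => ?_) hρs.measure_lt_top)
    exact subset_tsupport _ (Function.mem_support.2 hx.1.ne')
  have hfC : ∀ w i, ContDiff ℝ 1 (f w i) := fun w i =>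
    ((wf_contDiff hL c hω w).comp hρC).mul (hF i)
  have hfs : ∀ w i, HasCompactSupport (f w i) := fun w i => (hFc i).mul_left
  have hwz : ∀ w, ∀ x ∉ Ω w, wf L ω c w (ρ x) = 0 := fun w x hx => by
    by_cases h0 : 0 < ρ x
    · refine wf_zero hL ?_
      by_contra hcon
      push Not at hcon
      exact hx ⟨h0, hcon.2, hcon.1⟩
    · exact wf_nonpos (not_lt.1 h0)
  have hf0 : ∀ w i, ∀ x ∉ Ω w, f w i x = 0 := fun w i x hx => by
    simp only [hf, hwz w x hx, zero_mul]
  have hfsum : ∀ w x, den (f w) x = wf L ω c w (ρ x) ^ 2 * ρ x := fun w x => by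
    simp only [hf, hρ, den, mul_pow, Finset.mul_sum]
  have hfG : ∀ w, Gram1 (f w) := by
    intro w v
    refine le_trans ?_ (hG v)
    have hc1 : Continuous fun x => ∑ i, v i * F i x :=
      continuous_finsetSum _ fun i _ => continuous_const.mul (hF i).continuous
    have hs1 : HasCompactSupport fun x => ∑ i, v i * F i x := by
      refine HasCompactSupport.intro (K := ⋃ i, tsupport (F i))
        (isCompact_iUnion fun i => hFc i) fun x hx => ?_
      refine Finset.sum_eq_zero fun i _ => ?_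
      have : x ∉ tsupport (F i) := fun hx' => hx (mem_iUnion.2 ⟨i, hx'⟩)
      rw [image_eq_zero_of_notMem_tsupport this, mul_zero]
    have hs2 : HasCompactSupport fun x => (∑ i, v i * F i x) ^ 2 :=
      hs1.comp_left (g := fun r : ℝ => r ^ 2) (by simp)
    have hi1 : Integrable fun x => (∑ i, v i * F i x) ^ 2 :=
      (hc1.pow 2).integrable_of_hasCompactSupport hs2
    have e1 : ∀ x, (∑ i, v i * f w i x) ^ 2 =
        wf L ω c w (ρ x) ^ 2 * (∑ i, v i * F i x) ^ 2 := fun x => by
      rw [← mul_pow, Finset.mul_sum]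
      congr 1
      exact Finset.sum_congr rfl fun i _ => by simp only [hf]; ring
    have hi2 : Integrable fun x => wf L ω c w (ρ x) ^ 2 * (∑ i, v i * F i x) ^ 2 :=
      (((hcw w).pow 2).mul (hc1.pow 2)).integrable_of_hasCompactSupport hs2.mul_left
    simp only [e1]
    refine integral_mono hi2 hi1 fun x => ?_
    exact mul_le_of_le_one_left (sq_nonneg _) (wf_sq_le _ _ _ _ _)
  -- integrability
  have j1 : ∀ w, Integrable fun x => wf L ω c w (ρ x) ^ 2 * ρ x ^ (1 + δ) := fun w =>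
    (((hcw w).pow 2).mul hpc).integrable_of_hasCompactSupport hps.mul_left
  have j2 : ∀ w, Integrable fun x => (wf L ω c w (ρ x) ^ 2) ^ (1 + δ) * ρ x ^ (1 + δ) := fun w =>
    ((((hcw w).pow 2).rpow_const fun x => Or.inr (by positivity)).mul
      hpc).integrable_of_hasCompactSupport hps.mul_left
  have j4 : ∀ w, Integrable fun x => (if cond w (ρ x) then (1:ℝ) else 0) * ρ x ^ (1 + δ) := fun w => by
    have h1 : Integrable (indicator {x | cond w (ρ x)} fun x => ρ x ^ (1 + δ)) :=
      hpi.indicator (hcm w)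
    refine h1.congr (Eventually.of_forall fun x => ?_)
    simp only [indicator, mem_ofPred_eq]
    split_ifs <;> simp
  have j3 : ∀ w, Integrable fun x => ∑ k, ∑ i, LTd.pd k (f w i) x ^ 2 := fun w =>
    kin_integrable (hfC w) (hfs w)
  -- the windows
  have hwin : ∀ w : ℕ, LTd.Kcl d * (∫ x, (wf L ω c w (ρ x) ^ 2) ^ (1 + δ) * ρ x ^ (1 + δ)) ≤
      kin (f w) + ε * ((∫ x, wf L ω c w (ρ x) ^ 2 * ρ x ^ (1 + δ)) +
        ∫ x, (if cond w (ρ x) then (1:ℝ) else 0) * ρ x ^ (1 + δ)) := by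
    intro w
    set A : ℝ := Real.exp (ω * (c - w * L - L)) with hAd
    have hA : 0 < A := Real.exp_pos _
    have hAρ : ∀ x ∈ Ω w, A ≤ ρ x := by
      intro x hx
      have h2 := hx.2.1
      have h3 : c - w * L - L ≤ Real.log (ρ x) / ω := by linarith
      rw [le_div_iff₀ hω] at h3
      rw [hAd, ← Real.le_log_iff_exp_le hx.1]
      linarith
    have hden : ∀ x, den (f w) x ≤ A * Real.exp (ω * (L + 1)) := by
      intro x
      rw [hfsum]
      by_cases hx : x ∈ Ω w
      · have h1 : ρ x ≤ A * Real.exp (ω * (L + 1)) := by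
          rw [hAd, ← Real.exp_add, ← Real.log_le_iff_le_exp hx.1]
          have h2 := hx.2.2.le
          have h3 : Real.log (ρ x) / ω ≤ c - w * L + 1 := by linarith
          rw [div_le_iff₀ hω] at h3
          linarith
        exact (mul_le_of_le_one_left (hρ0 x) (wf_sq_le _ _ _ _ _)).trans h1
      · rw [hwz w x hx]
        have : (0:ℝ) ^ 2 * ρ x = 0 := by ring
        rw [this]
        positivity
    have key := hW A hA (Ω w) (hΩm w) (hΩf w) n (f w) (hfC w) (hfs w) (hf0 w) (hfG w) hden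
    have e1 : (∫ x, den (f w) x ^ (1 + 2 / (d:ℝ))) =
        ∫ x, (wf L ω c w (ρ x) ^ 2) ^ (1 + δ) * ρ x ^ (1 + δ) := by
      refine integral_congr_ae (Eventually.of_forall fun x => ?_)
      show den (f w) x ^ (1 + 2 / (d:ℝ)) = (wf L ω c w (ρ x) ^ 2) ^ (1 + δ) * ρ x ^ (1 + δ)
      rw [hfsum, Real.mul_rpow (sq_nonneg _) (hρ0 x)]
    rw [e1] at key
    refine key.trans ?_
    have hAδ : 0 < A ^ δ := Real.rpow_pos_of_pos hA _
    have b1 : A ^ δ * (∫ x, den (f w) x) ≤ ∫ x, wf L ω c w (ρ x) ^ 2 * ρ x ^ (1 + δ) := by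
      rw [← integral_const_mul]
      have hi : Integrable (den (f w)) :=
        (den_C1 (hfC w)).continuous.integrable_of_hasCompactSupport (den_supp (hfs w))
      refine integral_mono (hi.const_mul _) (j1 w) fun x => ?_
      show A ^ δ * den (f w) x ≤ wf L ω c w (ρ x) ^ 2 * ρ x ^ (1 + δ)
      rw [hfsum]
      by_cases hx : x ∈ Ω w
      · have h1 : A ^ δ ≤ ρ x ^ δ := Real.rpow_le_rpow hA.le (hAρ x hx) hδ.le
        rw [Real.rpow_add hx.1, Real.rpow_one]
        have h2 : 0 ≤ wf L ω c w (ρ x) ^ 2 * ρ x := mul_nonneg (sq_nonneg _) (hρ0 x)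
        nlinarith
      · rw [hwz w x hx]
        simp
    have b2 : A ^ δ * (A * (volume (Ω w)).toReal) ≤
        ∫ x, (if cond w (ρ x) then (1:ℝ) else 0) * ρ x ^ (1 + δ) := by
      have e2 : A ^ δ * (A * (volume (Ω w)).toReal) =
          ∫ x, (Ω w).indicator (fun _ => A ^ (1 + δ)) x := by
        rw [integral_indicator (hΩm w), setIntegral_const, smul_eq_mul, Measure.real,
          Real.rpow_add hA, Real.rpow_one]
        ring
      rw [e2]
      have hi : Integrable ((Ω w).indicator (fun _ => A ^ (1 + δ))) :=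
        (integrable_indicator_iff (hΩm w)).2 (integrableOn_const (hΩf w))
      refine integral_mono hi (j4 w) fun x => ?_
      show (Ω w).indicator (fun _ => A ^ (1 + δ)) x ≤
        (if cond w (ρ x) then (1:ℝ) else 0) * ρ x ^ (1 + δ)
      by_cases hx : x ∈ Ω w
      · rw [indicator_of_mem hx, if_pos hx.2, one_mul]
        exact Real.rpow_le_rpow hA.le (hAρ x hx) (by positivity)
      · rw [indicator_of_notMem hx]
        have := Real.rpow_nonneg (hρ0 x) (1 + δ)
        split_ifs <;> simp [this]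
    have e3 : ε * A ^ (2 / (d:ℝ)) * ((∫ x, den (f w) x) + A * (volume (Ω w)).toReal) =
        ε * (A ^ δ * (∫ x, den (f w) x) + A ^ δ * (A * (volume (Ω w)).toReal)) := by
      rw [hδd]; ring
    rw [e3]
    have := mul_le_mul_of_nonneg_left (add_le_add b1 b2) hε.le
    linarith
  -- sum
  have hsum := Finset.sum_le_sum fun w (_ : w ∈ Finset.range M) => hwin w
  rw [← Finset.mul_sum, Finset.sum_add_distrib, ← Finset.mul_sum, Finset.sum_add_distrib,
    ← integral_finsetSum _ fun w _ => j2 w, ← integral_finsetSum _ fun w _ => j1 w,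
    ← integral_finsetSum _ fun w _ => j4 w] at hsum
  have e0 : (∫ x, (∑ w ∈ Finset.range M, (wf L ω c w (ρ x) ^ 2) ^ (1 + δ)) * ρ x ^ (1 + δ)) =
      ∫ x, ∑ w ∈ Finset.range M, (wf L ω c w (ρ x) ^ 2) ^ (1 + δ) * ρ x ^ (1 + δ) := by
    refine integral_congr_ae (Eventually.of_forall fun x => ?_)
    show (∑ w ∈ Finset.range M, (wf L ω c w (ρ x) ^ 2) ^ (1 + δ)) * ρ x ^ (1 + δ) =
      ∑ w ∈ Finset.range M, (wf L ω c w (ρ x) ^ 2) ^ (1 + δ) * ρ x ^ (1 + δ)
    rw [Finset.sum_mul]
  rw [e0]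
  refine hsum.trans ?_
  have hR : ∑ w ∈ Finset.range M, kin (f w) ≤ (1 + 4 * C ^ 2 / ω ^ 2) * kin F := by
    unfold kin
    rw [← integral_finsetSum _ fun w _ => j3 w, ← integral_const_mul]
    refine integral_mono (integrable_finsetSum _ fun w _ => j3 w)
      ((kin_integrable hF hFc).const_mul _) fun x => ?_
    exact local_errL hF hL hω hC x (hρc x) M
  have hm1 : ∫ x, ∑ w ∈ Finset.range M, wf L ω c w (ρ x) ^ 2 * ρ x ^ (1 + δ) ≤
      ∫ x, ρ x ^ (1 + δ) := by
    refine integral_mono (integrable_finsetSum _ fun w _ => j1 w) hpi fun x => ?_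
    show ∑ w ∈ Finset.range M, wf L ω c w (ρ x) ^ 2 * ρ x ^ (1 + δ) ≤ ρ x ^ (1 + δ)
    rw [← Finset.sum_mul]
    rcases (hρ0 x).lt_or_eq with hr | hr
    · exact mul_le_of_le_one_left (Real.rpow_nonneg (hρ0 x) _)
        (wf_mass hL hω hr ((Real.log_le_iff_le_exp hr).2 (hρc x)) M)
    · rw [← hr, Real.zero_rpow (by positivity)]; simp
  have hm2 : ∫ x, ∑ w ∈ Finset.range M, (if cond w (ρ x) then (1:ℝ) else 0) * ρ x ^ (1 + δ) ≤
      2 * ∫ x, ρ x ^ (1 + δ) := by
    rw [← integral_const_mul]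
    refine integral_mono (integrable_finsetSum _ fun w _ => j4 w) (hpi.const_mul 2) fun x => ?_
    show ∑ w ∈ Finset.range M, (if cond w (ρ x) then (1:ℝ) else 0) * ρ x ^ (1 + δ) ≤
      2 * ρ x ^ (1 + δ)
    rw [← Finset.sum_mul]
    rcases (hρ0 x).lt_or_eq with hr | hr
    · exact mul_le_mul_of_nonneg_right
        (count hL hω ((Real.log_le_iff_le_exp hr).2 (hρc x)) M) (Real.rpow_nonneg (hρ0 x) _)
    · rw [← hr, Real.zero_rpow (by positivity)]; simp
  have := mul_le_mul_of_nonneg_left (add_le_add hm1 hm2) hε.le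
  linarith

theorem t_ASM : S_ASM := by
  obtain ⟨C, hC0, hC⟩ := dangL_bdd
  refine ⟨4 * C ^ 2 + 1, by positivity, ?_⟩
  intro d L ω ε hd hL hω1 hε hW n F hF hFc hG
  have hω : 0 < ω := by linarith
  have hd0 : (0:ℝ) < d := by exact_mod_cast hd
  have hL' : (1 : ℝ) ≤ L := by exact_mod_cast hL
  have hL0 : (0 : ℝ) < L := by linarith
  have hK := Kcl_nonneg' hd
  set δ : ℝ := 2 / (d:ℝ) with hδd
  have hδ : 0 < δ := by positivity
  have hρcont : Continuous (den F) := (den_C1 hF).continuous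
  have hρs : HasCompactSupport (den F) := den_supp hFc
  have hρ0 : ∀ x, 0 ≤ den F x := den_nonneg F
  have hρi : Integrable (den F) := hρcont.integrable_of_hasCompactSupport hρs
  have hpc : Continuous fun x => den F x ^ (1 + δ) :=
    hρcont.rpow_const fun x => Or.inr (by positivity)
  have hps : HasCompactSupport fun x => den F x ^ (1 + δ) := by
    refine hρs.comp_left (g := fun r : ℝ => r ^ (1 + δ)) ?_
    exact Real.zero_rpow (by positivity)
  have hpi : Integrable fun x => den F x ^ (1 + δ) := hpc.integrable_of_hasCompactSupport hps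
  obtain ⟨R₀, hR₀⟩ := hρs.exists_bound_of_continuous hρcont
  set R : ℝ := max R₀ 1 with hR
  have hR1 : 1 ≤ R := le_max_right _ _
  have hρR : ∀ x, den F x ≤ R := fun x =>
    ((le_abs_self _).trans (hR₀ x)).trans (le_max_left _ _)
  set c : ℝ := Real.log R / ω with hcdef
  have hωc : ω * c = Real.log R := by rw [hcdef]; field_simp
  have hexpc : Real.exp (ω * c) = R := by rw [hωc, Real.exp_log (by linarith)]
  set I := ∫ x, den F x ^ (1 + δ) with hI
  have hI0 : 0 ≤ I := integral_nonneg fun x => Real.rpow_nonneg (hρ0 x) _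
  set Λ := ∫ x, den F x with hΛ
  have hkin := kin_nonneg F
  set a : ℕ → ℝ := fun M => Real.exp (δ * (ω * (c + L - (M - 1) * L))) with ha
  have hM : ∀ M : ℕ, LTd.Kcl d * ((L - δ) * I - L * (a M * Λ)) ≤
      L * ((1 + 4 * C ^ 2 / ω ^ 2) * kin F + 3 * ε * I) := by
    intro M
    have h1 : ∀ j ∈ Finset.range L,
        LTd.Kcl d * (∫ x, (∑ w ∈ Finset.range M, (wf L ω (c + j) w (den F x) ^ 2) ^ (1 + δ)) *
          den F x ^ (1 + δ)) ≤ (1 + 4 * C ^ 2 / ω ^ 2) * kin F + 3 * ε * I := fun j _ =>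
      one_shift hC hd hL hω hε hW hF hFc hG (fun x => by
        refine (hρR x).trans ?_
        rw [← hexpc]
        refine Real.exp_le_exp.2 (mul_le_mul_of_nonneg_left ?_ hω.le)
        have : (0:ℝ) ≤ j := Nat.cast_nonneg j
        linarith) M
    have h2 := Finset.sum_le_sum h1
    have j5 : ∀ j : ℕ, Integrable fun x => (∑ w ∈ Finset.range M,
        (wf L ω (c + j) w (den F x) ^ 2) ^ (1 + δ)) * den F x ^ (1 + δ) := fun j => by
      have hc : Continuous fun x => ∑ w ∈ Finset.range M,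
          (wf L ω (c + j) w (den F x) ^ 2) ^ (1 + δ) :=
        continuous_finsetSum _ fun w _ =>
          ((((wf_contDiff hL (c + j) hω w).continuous.comp hρcont).pow 2).rpow_const
            fun x => Or.inr (by positivity))
      exact (hc.mul hpc).integrable_of_hasCompactSupport hps.mul_left
    rw [← Finset.mul_sum, ← integral_finsetSum _ fun j _ => j5 j, Finset.sum_const,
      Finset.card_range, nsmul_eq_mul] at h2
    refine le_trans (mul_le_mul_of_nonneg_left ?_ hK) h2
    have e : (L - δ) * I - L * (a M * Λ) =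
        ∫ x, ((L - δ) * den F x ^ (1 + δ) - L * (a M * den F x)) := by
      rw [integral_sub (hpi.const_mul _) ((hρi.const_mul _).const_mul _), integral_const_mul,
        integral_const_mul, integral_const_mul]
    rw [e]
    refine integral_mono ((hpi.const_mul _).sub ((hρi.const_mul _).const_mul _))
      (integrable_finsetSum _ fun j _ => j5 j) fun x => ?_
    show (L - δ) * den F x ^ (1 + δ) - L * (a M * den F x) ≤
      ∑ j ∈ Finset.range L, (∑ w ∈ Finset.range M,
        (wf L ω (c + j) w (den F x) ^ 2) ^ (1 + δ)) * den F x ^ (1 + δ)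
    rw [← Finset.sum_mul]
    have hax : 0 < a M := Real.exp_pos _
    rcases (hρ0 x).lt_or_eq with hr | hr
    · have hl : Real.log (den F x) ≤ ω * c := by
        rw [hωc]; exact Real.log_le_log hr (hρR x)
      have hp0 : 0 ≤ den F x ^ (1 + δ) := Real.rpow_nonneg (hρ0 x) _
      rcases pow_mass hL hω hδ hr hl M with h1 | h1
      · have h3 := mul_le_mul_of_nonneg_right h1 hp0
        have : 0 ≤ L * (a M * den F x) := by positivity
        linarith
      · have h3 : den F x ^ (1 + δ) ≤ a M * den F x := by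
          rw [Real.rpow_add hr, Real.rpow_one, mul_comm]
          refine mul_le_mul_of_nonneg_right ?_ hr.le
          rw [Real.rpow_def_of_pos hr]
          simp only [ha]
          refine Real.exp_le_exp.2 ?_
          rw [mul_comm]
          exact mul_le_mul_of_nonneg_left h1 hδ.le
        have h4 : 0 ≤ (∑ j ∈ Finset.range L, ∑ w ∈ Finset.range M,
            (wf L ω (c + j) w (den F x) ^ 2) ^ (1 + δ)) * den F x ^ (1 + δ) :=
          mul_nonneg (Finset.sum_nonneg fun j _ => Finset.sum_nonneg fun w _ =>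
            Real.rpow_nonneg (sq_nonneg _) _) hp0
        have h5 := mul_le_mul_of_nonneg_left h3 hL0.le
        nlinarith
    · rw [← hr, Real.zero_rpow (by positivity)]
      simp
  have hlim : Tendsto a atTop (𝓝 0) := by
    simp only [ha]
    refine Real.tendsto_exp_atBot.comp ?_
    have h1 : Tendsto (fun w : ℕ => c + L - ((w : ℝ) - 1) * L) atTop atBot := by
      have h2 : Tendsto (fun w : ℕ => ((w : ℝ) - 1) * L) atTop atTop :=
        (tendsto_atTop_add_const_right _ (-1) tendsto_natCast_atTop_atTop).atTop_mul_const hL0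
      simp only [sub_eq_add_neg]
      exact tendsto_atBot_add_const_left _ _ (tendsto_neg_atTop_atBot.comp h2)
    exact (h1.const_mul_atBot hω).const_mul_atBot hδ
  have hlim2 : Tendsto (fun M : ℕ => LTd.Kcl d * ((L - δ) * I - L * (a M * Λ))) atTop
      (𝓝 (LTd.Kcl d * ((L - δ) * I - L * (0 * Λ)))) :=
    (((hlim.mul_const _).const_mul _).const_sub _).const_mul _
  have hfin := le_of_tendsto' hlim2 hM
  -- divide by L
  have h6 : (LTd.Kcl d * (1 - 2 / (d * L))) * I ≤ (1 + 4 * C ^ 2 / ω ^ 2) * kin F + 3 * ε * I := by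
    have e : (LTd.Kcl d * (1 - 2 / (d * L))) * I =
        (LTd.Kcl d * ((L - δ) * I - L * (0 * Λ))) / L := by
      rw [hδd]; field_simp; ring
    rw [e, div_le_iff₀ hL0]
    linarith
  have h7 : (1 + 4 * C ^ 2 / ω ^ 2) * kin F ≤ (1 + (4 * C ^ 2 + 1) / ω ^ 2) * kin F := by
    refine mul_le_mul_of_nonneg_right ?_ hkin
    have : (4 * C ^ 2) / ω ^ 2 ≤ (4 * C ^ 2 + 1) / ω ^ 2 := by gcongr; linarith
    linarith
  have h8 : 0 ≤ ε * I := mul_nonneg hε.le hI0
  nlinarith

end Pool.Agent.L7h23.SC
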