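import Pool.Agent.L7h99.SC.Stm

/-!
Project SC (helper99), part BTH: the bathtub sum over the integers.
-/

set_option autoImplicit false

open MeasureTheory Set Filter Topology Real
open scoped ENNReal Matrix

namespace Pool.Agent.L7h23.SC

open Pool.Agent.L7h99.SC

lemma sum_sq_Icc (q : ℝ) (n : ℕ) : ∑ k ∈ Finset.Icc (-(n : ℤ)) n, (q ^ 2 - (k : ℝ) ^ 2) =
    (2 * n + 1) * (q ^ 2 - n * (n + 1) / 3) := by
  induction n with
  | zero =>
    have h : Finset.Icc (-((0 : ℕ) : ℤ)) ((0 : ℕ) : ℤ) = {0} := by decide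
    rw [h, Finset.sum_singleton]
    norm_num
  | succ n ih =>
    have h : Finset.Icc (-((n + 1 : ℕ) : ℤ)) ((n + 1 : ℕ) : ℤ) =
        insert (-((n + 1 : ℕ) : ℤ)) (insert (((n + 1 : ℕ) : ℤ)) (Finset.Icc (-(n : ℤ)) n)) := by
      ext k
      rw [Finset.mem_insert, Finset.mem_insert, Finset.mem_Icc, Finset.mem_Icc]
      push_cast
      omega
    rw [h, Finset.sum_insert, Finset.sum_insert, ih]
    · push_cast
      ring
    · rw [Finset.mem_Icc]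
      push_cast
      omega
    · rw [Finset.mem_insert, Finset.mem_Icc]
      push_cast
      omega

/-- the bathtub bound -/
lemma tub {q A : ℝ} (hq : 0 ≤ q) (hA : 0 ≤ A) (S : Finset ℤ) (a : ℤ → ℝ) (ha : ∀ k ∈ S, 0 ≤ a k ∧ a k ≤ A) :
    ∑ k ∈ S, (q ^ 2 - (k : ℝ) ^ 2) * a k ≤ A * (q ^ 2 + 4 / 3 * q ^ 3) := by
  set n := ⌊q⌋₊ with hn
  have hn1 : (n : ℝ) ≤ q := Nat.floor_le hq
  have hn2 : q < n + 1 := Nat.lt_floor_add_one q
  have h1 : ∑ k ∈ S, (q ^ 2 - (k : ℝ) ^ 2) * a k ≤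
      ∑ k ∈ S.filter (fun k => k ∈ Finset.Icc (-(n : ℤ)) n), (q ^ 2 - (k : ℝ) ^ 2) * A := by
    rw [Finset.sum_filter]
    refine Finset.sum_le_sum fun k hk => ?_
    obtain ⟨h2, h3⟩ := ha k hk
    split_ifs with h4
    · rw [Finset.mem_Icc] at h4
      have h5 : |(k : ℝ)| ≤ q := by
        rw [abs_le]
        have h6 : (-(n : ℝ)) ≤ k := by exact_mod_cast h4.1
        have h7 : (k : ℝ) ≤ n := by exact_mod_cast h4.2
        constructor <;> linarith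
      have h6 : (k : ℝ) ^ 2 ≤ q ^ 2 := by
        rw [← sq_abs (k : ℝ)]
        exact pow_le_pow_left₀ (abs_nonneg _) h5 2
      exact mul_le_mul_of_nonneg_left h3 (by linarith)
    · rw [Finset.mem_Icc, not_and_or, not_le, not_le] at h4
      have h5 : q ≤ |(k : ℝ)| := by
        rcases h4 with h4 | h4
        · have h6 : k + 1 ≤ -(n : ℤ) := h4
          have h7 : (k : ℝ) + 1 ≤ -(n : ℝ) := by exact_mod_cast h6
          have := neg_le_abs (k : ℝ)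
          linarith
        · have h6 : (n : ℤ) + 1 ≤ k := h4
          have h7 : (n : ℝ) + 1 ≤ k := by exact_mod_cast h6
          have := le_abs_self (k : ℝ)
          linarith
      have h6 : q ^ 2 ≤ (k : ℝ) ^ 2 := by
        rw [← sq_abs (k : ℝ)]
        exact pow_le_pow_left₀ hq h5 2
      exact mul_nonpos_of_nonpos_of_nonneg (by linarith) h2
  have h2 : ∑ k ∈ S.filter (fun k => k ∈ Finset.Icc (-(n : ℤ)) n), (q ^ 2 - (k : ℝ) ^ 2) * A ≤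
      ∑ k ∈ Finset.Icc (-(n : ℤ)) n, (q ^ 2 - (k : ℝ) ^ 2) * A := by
    apply Finset.sum_le_sum_of_subset_of_nonneg
    · intro k hk
      exact (Finset.mem_filter.1 hk).2
    · intro k hk _
      rw [Finset.mem_Icc] at hk
      have h5 : |(k : ℝ)| ≤ q := by
        rw [abs_le]
        have h6 : (-(n : ℝ)) ≤ k := by exact_mod_cast hk.1
        have h7 : (k : ℝ) ≤ n := by exact_mod_cast hk.2
        constructor <;> linarith
      have h6 : (k : ℝ) ^ 2 ≤ q ^ 2 := by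
        rw [← sq_abs (k : ℝ)]
        exact pow_le_pow_left₀ (abs_nonneg _) h5 2
      exact mul_nonneg (by linarith) hA
  refine (h1.trans h2).trans ?_
  rw [← Finset.sum_mul, sum_sq_Icc, mul_comm]
  refine mul_le_mul_of_nonneg_left ?_ hA
  have hn0 : (0 : ℝ) ≤ n := Nat.cast_nonneg n
  have h3 : q ^ 2 + 4 / 3 * q ^ 3 - (2 * n + 1) * (q ^ 2 - n * (n + 1) / 3) =
      2 * ((1 / 3) * (q - n) ^ 2 * (2 * q + n)) + (n : ℝ) ^ 2 + n / 3 := by ring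
  have h4 : 0 ≤ (1 / 3) * (q - n) ^ 2 * (2 * q + n) := by positivity
  have h5 : (0 : ℝ) ≤ (n : ℝ) ^ 2 := sq_nonneg _
  linarith

theorem t_BTH : S_BTH := by
  intro ℓ η hℓ hη S a ha
  set r := ∑ k ∈ S, a k with hr
  have hr0 : 0 ≤ r := Finset.sum_nonneg fun k hk => (ha k hk).1
  have h1 := tub (q := ℓ * r) (A := 1 / (2 * ℓ)) (by positivity) (by positivity) S a ha
  have hpi := Real.pi_pos
  have e1 : ∑ k ∈ S, (π * k / ℓ) ^ 2 * a k = π ^ 2 / ℓ ^ 2 * ((ℓ * r) ^ 2 * r -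
      ∑ k ∈ S, ((ℓ * r) ^ 2 - (k : ℝ) ^ 2) * a k) := by
    have e2 : ∑ k ∈ S, ((ℓ * r) ^ 2 - (k : ℝ) ^ 2) * a k =
        (ℓ * r) ^ 2 * r - ∑ k ∈ S, (k : ℝ) ^ 2 * a k := by
      have e5 : (ℓ * r) ^ 2 * r = ∑ k ∈ S, (ℓ * r) ^ 2 * a k := by rw [← Finset.mul_sum]
      rw [e5, ← Finset.sum_sub_distrib]
      refine Finset.sum_congr rfl fun k _ => ?_
      ring
    rw [e2, sub_sub_cancel, Finset.mul_sum]
    refine Finset.sum_congr rfl fun k _ => ?_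
    field_simp
  rw [e1]
  have h2 : π ^ 2 / ℓ ^ 2 * ((ℓ * r) ^ 2 * r - 1 / (2 * ℓ) * ((ℓ * r) ^ 2 + 4 / 3 * (ℓ * r) ^ 3)) ≤
      π ^ 2 / ℓ ^ 2 * ((ℓ * r) ^ 2 * r - ∑ k ∈ S, ((ℓ * r) ^ 2 - (k : ℝ) ^ 2) * a k) :=
    mul_le_mul_of_nonneg_left (by linarith) (by positivity)
  refine le_trans ?_ h2
  have e3 : π ^ 2 / ℓ ^ 2 * ((ℓ * r) ^ 2 * r - 1 / (2 * ℓ) * ((ℓ * r) ^ 2 + 4 / 3 * (ℓ * r) ^ 3)) =
      π ^ 2 * (r ^ 3 / 3 - r ^ 2 / (2 * ℓ)) := by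
    field_simp
    ring
  rw [e3]
  have e4 : π ^ 2 * (r ^ 3 / 3 - r ^ 2 / (2 * ℓ)) -
      (π ^ 2 / 3 * (1 - η) * r ^ 3 - 3 * π ^ 2 / (16 * η * ℓ ^ 2) * r) =
      π ^ 2 * r * (η / 3) * (r - 3 / (4 * η * ℓ)) ^ 2 := by
    field_simp
    ring
  have h3 : 0 ≤ π ^ 2 * r * (η / 3) * (r - 3 / (4 * η * ℓ)) ^ 2 := by positivity
  linarith

end Pool.Agent.L7h23.SC
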