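import Pool.Agent.L7h3.SC.Stm

/-! parts COLL and COL of project SC (MP_0e6637_co) -/

set_option autoImplicit false

namespace Pool.Agent.L7h23.SC

open Pool.Agent.L7h3.SC

theorem s_COLL : S_COLL := by
  intro E _ _ _ a b c a' b' c' h1 h2 h3 h
  rcases h.wbtw_or_wbtw_or_wbtw with h | h | h
  · rw [← dist_add_dist_eq_iff] at h
    have h' : Wbtw ℝ a' b' c' := by
      rw [← dist_add_dist_eq_iff, h1, h2, h3]
      exact h
    exact h'.collinear
  · rw [← dist_add_dist_eq_iff] at h
    have h' : Wbtw ℝ b' c' a' := by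
      rw [← dist_add_dist_eq_iff, h2, dist_comm c' a', h3, dist_comm b' a', h1, dist_comm a c,
        dist_comm a b]
      exact h
    have e : ({a', b', c'} : Set E) = {b', c', a'} := by
      ext x
      simp only [Set.mem_insert_iff, Set.mem_singleton_iff]
      tauto
    rw [e]
    exact h'.collinear
  · rw [← dist_add_dist_eq_iff] at h
    have h' : Wbtw ℝ c' a' b' := by
      rw [← dist_add_dist_eq_iff, h1, dist_comm c' a', h3, dist_comm c' b', h2, dist_comm a c,
        dist_comm b c]
      exact h
    have e : ({a', b', c'} : Set E) = {c', a', b'} := by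
      ext x
      simp only [Set.mem_insert_iff, Set.mem_singleton_iff]
      tauto
    rw [e]
    exact h'.collinear

theorem s_COL (hU : S_UNIQ) (hC : S_COLL) : S_COL := by
  intro E _ _ _ x hx hcol s q hs
  obtain ⟨i, j, k, hij, -, -, rfl⟩ := Finset.card_eq_three.1 hs
  refine Set.Subsingleton.countable ?_
  rintro p ⟨hp, hpq⟩ p' ⟨hp', hpq'⟩
  have ei : p' i = p i := (hpq' i (by simp)).trans (hpq i (by simp)).symm
  have ej : p' j = p j := (hpq' j (by simp)).trans (hpq j (by simp)).symm
  have hne : p i ≠ p j := by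
    intro h
    have h1 := hp i j
    rw [h, dist_self] at h1
    exact hij (hx (dist_eq_zero.1 h1.symm))
  funext m
  have h1 : Collinear ℝ {p i, p j, p m} :=
    hC E (x i) (x j) (x m) (p i) (p j) (p m) (hp i j) (hp j m) (hp i m) (hcol i j m)
  have h2 := hU E (p i) (p j) (p m) (p' m) hne h1 (by rw [← ei, hp' m i, ei, hp m i])
    (by rw [← ej, hp' m j, ej, hp m j])
  exact h2.symm

end Pool.Agent.L7h23.SC
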