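import Pool.Agent.L7h99.SC.Stm

/-!
Project SC (helper99), part GRM: Gram matrices.
-/

set_option autoImplicit false

open MeasureTheory Set Filter Topology Real
open scoped ENNReal Matrix

namespace Pool.Agent.L7h23.SC

open Pool.Agent.L7h99.SC

section

variable {m N : ℕ} {w : Fin N → (Fin m → ℝ) → ℝ}

lemma prod_int (hc : ∀ p, Continuous (w p)) (hs : ∀ p, HasCompactSupport (w p)) (p q : Fin N) :
    Integrable (fun y => w p y * w q y) :=
  ((hc p).mul (hc q)).integrable_of_hasCompactSupport (hs p).mul_right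

/-- one direction -/
lemma one_dir (hB : S_BTH) {ℓ η : ℝ} (hℓ : 0 < ℓ) (hη : 0 < η) {κ : Fin N → ℤ}
    (hc : ∀ p, Continuous (w p)) (hs : ∀ p, HasCompactSupport (w p))
    (hBes : ∀ e : (Fin m → ℝ) → ℝ, Continuous e → HasCompactSupport e → ∀ k : ℤ,
      ∑ p, (if κ p = k then (∫ y, w p y * e y) ^ 2 else 0) ≤ 1 / (2 * ℓ) * ∫ y, e y ^ 2)
    {v : Fin N → ℝ} {r : ℝ} (hr : 0 ≤ r) (hv : ∑ p, v p ^ 2 = 1)
    (hM : ∀ p, ∑ q, (∫ y, w p y * w q y) * v q = r * v p) :
    π ^ 2 / 3 * (1 - η) * r ^ 3 - 3 * π ^ 2 / (16 * η * ℓ ^ 2) * r ≤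
      ∑ p, (π * κ p / ℓ) ^ 2 * (r * v p ^ 2) := by
  rcases hr.eq_or_lt with h0 | h0
  · rw [← h0]
    simp
  set e : (Fin m → ℝ) → ℝ := fun y => (√r)⁻¹ * ∑ q, v q * w q y with he
  have hsr : 0 < √r := Real.sqrt_pos.2 h0
  have hec : Continuous e := by
    rw [he]
    exact continuous_const.mul (continuous_finset_sum _ fun q _ => continuous_const.mul (hc q))
  have hes : HasCompactSupport e := by
    rw [he]
    apply HasCompactSupport.mul_left
    have h1 : (fun y => ∑ q, v q * w q y) = ∑ q, fun y => v q * w q y := by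
      funext y
      rw [Finset.sum_apply]
    rw [h1]
    apply HasCompactSupport.intro' (K := ⋃ q : Fin N, tsupport (w q))
    · exact isCompact_iUnion fun q => hs q
    · exact isClosed_iUnion_of_finite fun q => isClosed_tsupport _
    · intro y hy
      rw [mem_iUnion, not_exists] at hy
      rw [Finset.sum_apply]
      refine Finset.sum_eq_zero fun q _ => ?_
      rw [image_eq_zero_of_notMem_tsupport (hy q), mul_zero]
  have hwe : ∀ p, ∫ y, w p y * e y = √r * v p := by
    intro p
    have h1 : ∀ y, w p y * e y = (√r)⁻¹ * ∑ q, v q * (w p y * w q y) := by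
      intro y
      rw [he]
      simp only
      rw [mul_left_comm, Finset.mul_sum]
      congr 1
      refine Finset.sum_congr rfl fun q _ => ?_
      ring
    simp_rw [h1]
    rw [integral_const_mul, integral_finset_sum _ fun q _ => (prod_int hc hs p q).const_mul _]
    simp_rw [integral_const_mul]
    have h2 := hM p
    have h3 : ∑ q, v q * ∫ y, w p y * w q y = r * v p := by
      rw [← h2]
      exact Finset.sum_congr rfl fun q _ => mul_comm _ _
    rw [h3]
    have h4 : r = √r * √r := (Real.mul_self_sqrt hr).symm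
    field_simp
    rw [Real.sq_sqrt hr]
  have hee : ∫ y, e y ^ 2 = 1 := by
    have h1 : ∀ y, e y ^ 2 = (√r)⁻¹ * ∑ p, v p * (w p y * e y) := by
      intro y
      have h2 : e y ^ 2 = e y * ((√r)⁻¹ * ∑ q, v q * w q y) := by
        rw [sq]
      rw [h2, mul_left_comm, Finset.mul_sum]
      congr 1
      refine Finset.sum_congr rfl fun q _ => ?_
      ring
    simp_rw [h1]
    rw [integral_const_mul, integral_finset_sum]
    · simp_rw [integral_const_mul, hwe]
      have h3 : ∑ p, v p * (√r * v p) = √r * ∑ p, v p ^ 2 := by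
        rw [Finset.mul_sum]
        exact Finset.sum_congr rfl fun p _ => by ring
      rw [h3, hv, mul_one, inv_mul_cancel₀ hsr.ne']
    · intro p _
      exact (((hc p).mul hec).integrable_of_hasCompactSupport (hs p).mul_right).const_mul _
  set a : ℤ → ℝ := fun k => ∑ p, (if κ p = k then r * v p ^ 2 else 0) with ha
  have ha1 : ∀ k, 0 ≤ a k ∧ a k ≤ 1 / (2 * ℓ) := by
    intro k
    constructor
    · exact Finset.sum_nonneg fun p _ => by split_ifs <;> positivity
    · have h1 := hBes e hec hes k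
      rw [hee, mul_one] at h1
      refine le_trans (le_of_eq ?_) h1
      rw [ha]
      refine Finset.sum_congr rfl fun p _ => ?_
      rw [hwe, mul_pow, Real.sq_sqrt hr]
  set S : Finset ℤ := Finset.univ.image κ with hS
  have hsum : ∀ g : ℤ → ℝ, ∑ k ∈ S, g k * a k = ∑ p, g (κ p) * (r * v p ^ 2) := by
    intro g
    rw [ha]
    simp only
    have h1 : ∀ k ∈ S, g k * ∑ p, (if κ p = k then r * v p ^ 2 else 0) =
        ∑ p, (if κ p = k then g (κ p) * (r * v p ^ 2) else 0) := by
      intro k _
      rw [Finset.mul_sum]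
      refine Finset.sum_congr rfl fun p _ => ?_
      split_ifs with h
      · rw [h]
      · rw [mul_zero]
    rw [Finset.sum_congr rfl h1, Finset.sum_comm]
    refine Finset.sum_congr rfl fun p _ => ?_
    rw [Finset.sum_ite_eq, if_pos]
    rw [hS]
    exact Finset.mem_image_of_mem κ (Finset.mem_univ p)
  have h1 := hB ℓ η hℓ hη S a (fun k _ => ha1 k)
  have h2 : ∑ k ∈ S, a k = r := by
    have h3 := hsum (fun _ => 1)
    simp only [one_mul] at h3
    rw [h3, ← Finset.mul_sum, hv, mul_one]
  rw [h2, hsum (fun k => (π * k / ℓ) ^ 2)] at h1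
  exact h1

end

theorem t_GRM (hB : S_BTH) : S_GRM := by
  intro ℓ η hℓ hη m N w κ hc hs hBes V r hV1 hV2 hr hM
  have hpq : ∀ p q, ∫ y, w p y * w q y = ∑ j, V p j * r j * V q j := by
    intro p q
    have h1 := congrFun (congrFun hM p) q
    rw [Matrix.of_apply] at h1
    rw [h1, Matrix.mul_apply]
    refine Finset.sum_congr rfl fun j _ => ?_
    rw [Matrix.mul_diagonal, Matrix.transpose_apply]
  have hcol : ∀ i j, ∑ p, V p i * V p j = if i = j then 1 else 0 := by
    intro i j
    have h1 := congrFun (congrFun hV2 i) j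
    rw [Matrix.mul_apply, Matrix.one_apply] at h1
    rw [← h1]
    rfl
  have hdir : ∀ j, π ^ 2 / 3 * (1 - η) * r j ^ 3 - 3 * π ^ 2 / (16 * η * ℓ ^ 2) * r j ≤
      ∑ p, (π * κ p / ℓ) ^ 2 * (r j * V p j ^ 2) := by
    intro j
    refine one_dir hB hℓ hη hc hs hBes (hr j) ?_ ?_
    · have h1 := hcol j j
      rw [if_pos rfl] at h1
      rw [← h1]
      exact Finset.sum_congr rfl fun p _ => by ring
    · intro p
      simp_rw [hpq]
      have h1 : ∑ q, (∑ i, V p i * r i * V q i) * V q j = ∑ i, V p i * r i * ∑ q, V q i * V q j := by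
        simp_rw [Finset.sum_mul, Finset.mul_sum]
        rw [Finset.sum_comm]
        refine Finset.sum_congr rfl fun i _ => Finset.sum_congr rfl fun q _ => ?_
        ring
      rw [h1]
      simp_rw [hcol]
      rw [Finset.sum_eq_single j]
      · rw [if_pos rfl]
        ring
      · intro i _ hij
        rw [if_neg hij, mul_zero]
      · intro h
        exact absurd (Finset.mem_univ j) h
  have hsum := Finset.sum_le_sum fun j (_ : j ∈ Finset.univ) => hdir j
  rw [Finset.sum_sub_distrib, ← Finset.mul_sum, ← Finset.mul_sum, Finset.sum_comm] at hsum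
  have h1 : ∀ p, ∑ j, (π * κ p / ℓ) ^ 2 * (r j * V p j ^ 2) = (π * κ p / ℓ) ^ 2 * ∫ y, w p y ^ 2 := by
    intro p
    rw [← Finset.mul_sum]
    congr 1
    have h2 : ∫ y, w p y ^ 2 = ∫ y, w p y * w p y := by
      congr 1
      funext y
      rw [sq]
    rw [h2, hpq]
    exact Finset.sum_congr rfl fun j _ => by ring
  have h3 : ∑ p, ∫ y, w p y ^ 2 = ∑ j, r j := by
    have h2 : ∀ p, ∫ y, w p y ^ 2 = ∑ j, r j * (V p j * V p j) := by
      intro p
      have h4 : ∫ y, w p y ^ 2 = ∫ y, w p y * w p y := by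
        congr 1
        funext y
        rw [sq]
      rw [h4, hpq]
      exact Finset.sum_congr rfl fun j _ => by ring
    simp_rw [h2]
    rw [Finset.sum_comm]
    refine Finset.sum_congr rfl fun j _ => ?_
    rw [← Finset.mul_sum, hcol, if_pos rfl, mul_one]
  rw [Finset.sum_congr rfl fun p _ => h1 p] at hsum
  rw [h3]
  linarith

end Pool.Agent.L7h23.SC
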