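import Pool.Agent.L7h99.SC.Stm

/-!
Project SC (helper99), part PAR: Parseval's identity on a period.
-/

set_option autoImplicit false

open MeasureTheory Set Filter Topology Real
open scoped ENNReal Matrix

namespace Pool.Agent.L7h23.SC

open Pool.Agent.L7h99.SC

section

variable {ℓ x : ℝ} {b : ℝ → ℝ}

lemma supp_sub (hb : ∀ t, ℓ ≤ |t - x| → b t = 0) : Function.support b ⊆ Ioc (x - ℓ) (x + ℓ) := by
  intro t ht
  rw [Function.mem_support] at ht
  have h1 : ¬ ℓ ≤ |t - x| := fun h => ht (hb t h)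
  rw [not_le, abs_lt] at h1
  exact ⟨by linarith [h1.1], by linarith [h1.2]⟩

lemma cs_of (hb : ∀ t, ℓ ≤ |t - x| → b t = 0) : HasCompactSupport b := by
  apply HasCompactSupport.of_support_subset_isCompact (isCompact_Icc (a := x - ℓ) (b := x + ℓ))
  exact (supp_sub hb).trans Ioc_subset_Icc_self

lemma int_cos (hc : Continuous b) (hb : ∀ t, ℓ ≤ |t - x| → b t = 0) (w : ℝ) :
    Integrable (fun t => b t * Real.cos (w * t)) := by
  apply Continuous.integrable_of_hasCompactSupport (by fun_prop)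
  exact (cs_of hb).mul_right

lemma int_sin (hc : Continuous b) (hb : ∀ t, ℓ ≤ |t - x| → b t = 0) (w : ℝ) :
    Integrable (fun t => b t * Real.sin (w * t)) := by
  apply Continuous.integrable_of_hasCompactSupport (by fun_prop)
  exact (cs_of hb).mul_right

/-- the Fourier coefficient -/
lemma coef (hℓ : 0 < ℓ) (hc : Continuous b) (hb : ∀ t, ℓ ≤ |t - x| → b t = 0)
    (hab : x - ℓ < x + ℓ) (k : ℤ) :
    ‖fourierCoeffOn hab (fun t => (b t : ℂ)) k‖ ^ 2 = (cc ℓ k b ^ 2 + ss ℓ k b ^ 2) / (2 * ℓ) ^ 2 := by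
  have eT : x + ℓ - (x - ℓ) = 2 * ℓ := by ring
  have h1 : fourierCoeffOn hab (fun t => (b t : ℂ)) k =
      (1 / (2 * ℓ) : ℝ) • (((cc ℓ k b : ℝ) : ℂ) - Complex.I * ((ss ℓ k b : ℝ) : ℂ)) := by
    rw [fourierCoeffOn_eq_integral, eT]
    congr 1
    have e2 : ∀ t : ℝ, (fourier (-k) (t : AddCircle (2 * ℓ))) • (b t : ℂ) =
        ((b t * Real.cos (π * k / ℓ * t) : ℝ) : ℂ) -
          Complex.I * ((b t * Real.sin (π * k / ℓ * t) : ℝ) : ℂ) := by
      intro t
      rw [smul_eq_mul, fourier_coe_apply]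
      have e3 : 2 * (π : ℂ) * Complex.I * ((-k : ℤ) : ℂ) * (t : ℂ) / ((2 * ℓ : ℝ) : ℂ) =
          ((-(π * k / ℓ * t) : ℝ) : ℂ) * Complex.I := by
        have hℓc : (ℓ : ℂ) ≠ 0 := by exact_mod_cast hℓ.ne'
        push_cast
        field_simp
      rw [e3, Complex.exp_mul_I, ← Complex.ofReal_cos, ← Complex.ofReal_sin, Real.cos_neg, Real.sin_neg]
      push_cast
      ring
    simp_rw [e2]
    have hi1 := (int_cos hc hb (π * k / ℓ)).ofReal (𝕜 := ℂ)
    have hi2 := ((int_sin hc hb (π * k / ℓ)).ofReal (𝕜 := ℂ)).const_mul Complex.I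
    have hs : Function.support (fun t : ℝ => ((b t * Real.cos (π * k / ℓ * t) : ℝ) : ℂ) -
          Complex.I * ((b t * Real.sin (π * k / ℓ * t) : ℝ) : ℂ)) ⊆ Ioc (x - ℓ) (x + ℓ) := by
      intro t ht
      apply supp_sub hb
      rw [Function.mem_support] at ht ⊢
      intro h0
      apply ht
      simp [h0]
    rw [intervalIntegral.integral_eq_integral_of_support_subset hs]
    have h5 := integral_sub hi1 hi2
    have h6 : ∫ t : ℝ, ((b t * Real.cos (π * k / ℓ * t) : ℝ) : ℂ) = ((cc ℓ k b : ℝ) : ℂ) :=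
      integral_ofReal
    have h7 : ∫ t : ℝ, Complex.I * ((b t * Real.sin (π * k / ℓ * t) : ℝ) : ℂ) =
        Complex.I * ((ss ℓ k b : ℝ) : ℂ) := by
      rw [integral_const_mul]
      congr 1
      exact integral_ofReal
    rw [← h6, ← h7]
    exact h5
  rw [h1, norm_smul, mul_pow, Real.norm_of_nonneg (by positivity), ← Complex.normSq_eq_norm_sq,
    Complex.normSq_apply]
  simp
  field_simp

theorem parseval (hℓ : 0 < ℓ) (hc : Continuous b) (hb : ∀ t, ℓ ≤ |t - x| → b t = 0) :
    HasSum (fun k : ℤ => (cc ℓ k b ^ 2 + ss ℓ k b ^ 2) / (2 * ℓ)) (∫ t, b t ^ 2) := by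
  have hab : x - ℓ < x + ℓ := by linarith
  have eT : x + ℓ - (x - ℓ) = 2 * ℓ := by ring
  have hcc : Continuous (fun t : ℝ => (b t : ℂ)) := Complex.continuous_ofReal.comp hc
  have hL2 : MemLp (fun t : ℝ => (b t : ℂ)) 2 (volume.restrict (Ioc (x - ℓ) (x + ℓ))) := by
    have hcs : HasCompactSupport (fun t : ℝ => (b t : ℂ)) := (cs_of hb).comp_left Complex.ofReal_zero
    exact (hcc.memLp_of_hasCompactSupport hcs).restrict _
  have H := hasSum_sq_fourierCoeffOn hab hL2
  simp_rw [coef hℓ hc hb hab] at H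
  have H2 := H.mul_left (2 * ℓ)
  have e1 : (2 * ℓ) * ((x + ℓ - (x - ℓ))⁻¹ • ∫ t in (x - ℓ)..(x + ℓ), ‖(b t : ℂ)‖ ^ 2) = ∫ t, b t ^ 2 := by
    rw [smul_eq_mul, eT, ← mul_assoc, mul_inv_cancel₀ (by positivity), one_mul]
    have e3 : ∀ t : ℝ, ‖(b t : ℂ)‖ ^ 2 = b t ^ 2 := by
      intro t
      rw [Complex.norm_real, Real.norm_eq_abs, sq_abs]
    simp_rw [e3]
    apply intervalIntegral.integral_eq_integral_of_support_subset
    intro t ht
    apply supp_sub hb
    rw [Function.mem_support] at ht ⊢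
    intro h0
    apply ht
    simp [h0]
  rw [e1] at H2
  have e4 : (fun k : ℤ => (cc ℓ k b ^ 2 + ss ℓ k b ^ 2) / (2 * ℓ)) =
      fun k : ℤ => 2 * ℓ * ((cc ℓ k b ^ 2 + ss ℓ k b ^ 2) / (2 * ℓ) ^ 2) := by
    funext k
    field_simp
  rw [e4]
  exact H2

/-- the derivative vanishes outside the interval -/
lemma deriv_zero (hℓ : 0 < ℓ) (hc : ContDiff ℝ 1 b) (hb : ∀ t, ℓ ≤ |t - x| → b t = 0) :
    ∀ t, ℓ ≤ |t - x| → deriv b t = 0 := by
  have hd : Continuous (deriv b) := hc.continuous_deriv le_rfl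
  -- strictly outside
  have h1 : ∀ t, ℓ < |t - x| → deriv b t = 0 := by
    intro t ht
    have h2 : b =ᶠ[𝓝 t] fun _ => 0 := by
      have h3 : ∀ᶠ s in 𝓝 t, ℓ < |s - x| := by
        have h4 : ContinuousAt (fun s : ℝ => |s - x|) t := by fun_prop
        exact h4.eventually_const_lt ht
      filter_upwards [h3] with s hs
      exact hb s hs.le
    rw [h2.deriv_eq]
    simp
  intro t ht
  have hcl : t ∈ closure {s : ℝ | ℓ < |s - x|} := by
    have h6 : Tendsto (fun s : ℝ => x + s * (t - x)) (𝓝[>] 1) (𝓝 t) := by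
      have h7 : Continuous (fun s : ℝ => x + s * (t - x)) := by fun_prop
      have h8 := (h7.tendsto 1).mono_left (nhdsWithin_le_nhds (s := Ioi 1))
      have e : x + 1 * (t - x) = t := by ring
      rwa [e] at h8
    refine mem_closure_of_tendsto h6 ?_
    filter_upwards [self_mem_nhdsWithin] with s (hs : 1 < s)
    show ℓ < |x + s * (t - x) - x|
    have e : x + s * (t - x) - x = s * (t - x) := by ring
    rw [e, abs_mul, abs_of_pos (by linarith)]
    nlinarith
  have h4 : IsClosed {s : ℝ | deriv b s = 0} := isClosed_eq hd continuous_const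
  have h5 : {s : ℝ | ℓ < |s - x|} ⊆ {s : ℝ | deriv b s = 0} := fun s hs => h1 s hs
  exact (h4.closure_subset_iff.2 h5) hcl

lemma cc_deriv (hc : ContDiff ℝ 1 b) (hb : ∀ t, ℓ ≤ |t - x| → b t = 0) (hb' : ∀ t, ℓ ≤ |t - x| → deriv b t = 0)
    (k : ℤ) : cc ℓ k (deriv b) = (π * k / ℓ) * ss ℓ k b := by
  have hd : Continuous (deriv b) := hc.continuous_deriv le_rfl
  set w := π * k / ℓ with hw
  have hcos : ∀ t, HasDerivAt (fun t => Real.cos (w * t)) (-(w * Real.sin (w * t))) t := by
    intro t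
    have h1 := (hasDerivAt_id t).const_mul w
    have h2 := h1.cos
    simp only [id_eq, mul_one] at h2
    refine h2.congr_deriv ?_
    ring
  have hbd : ∀ t, HasDerivAt b (deriv b t) t := fun t => (hc.differentiable one_ne_zero t).hasDerivAt
  have h := integral_mul_deriv_eq_deriv_mul_of_integrable (u := fun t => Real.cos (w * t)) (v := b)
    (u' := fun t => -(w * Real.sin (w * t))) (v' := deriv b) (fun t _ => hcos t) (fun t _ => hbd t)
    (by
      refine (int_cos hd hb' w).congr (Eventually.of_forall fun t => ?_)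
      show deriv b t * Real.cos (w * t) = Real.cos (w * t) * deriv b t
      ring)
    (by
      refine ((int_sin hc.continuous hb w).const_mul (-w)).congr (Eventually.of_forall fun t => ?_)
      show -w * (b t * Real.sin (w * t)) = -(w * Real.sin (w * t)) * b t
      ring)
    (by
      refine (int_cos hc.continuous hb w).congr (Eventually.of_forall fun t => ?_)
      show b t * Real.cos (w * t) = Real.cos (w * t) * b t
      ring)
  unfold cc ss
  rw [← hw]
  have e1 : ∫ t, deriv b t * Real.cos (w * t) = ∫ t, Real.cos (w * t) * deriv b t := by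
    congr 1; funext t; ring
  rw [e1, h, ← integral_const_mul, ← integral_neg]
  congr 1
  funext t
  ring

lemma ss_deriv (hc : ContDiff ℝ 1 b) (hb : ∀ t, ℓ ≤ |t - x| → b t = 0) (hb' : ∀ t, ℓ ≤ |t - x| → deriv b t = 0)
    (k : ℤ) : ss ℓ k (deriv b) = -((π * k / ℓ) * cc ℓ k b) := by
  have hd : Continuous (deriv b) := hc.continuous_deriv le_rfl
  set w := π * k / ℓ with hw
  have hsin : ∀ t, HasDerivAt (fun t => Real.sin (w * t)) (w * Real.cos (w * t)) t := by
    intro t
    have h1 := (hasDerivAt_id t).const_mul w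
    have h2 := h1.sin
    simp only [id_eq, mul_one] at h2
    refine h2.congr_deriv ?_
    ring
  have hbd : ∀ t, HasDerivAt b (deriv b t) t := fun t => (hc.differentiable one_ne_zero t).hasDerivAt
  have h := integral_mul_deriv_eq_deriv_mul_of_integrable (u := fun t => Real.sin (w * t)) (v := b)
    (u' := fun t => w * Real.cos (w * t)) (v' := deriv b) (fun t _ => hsin t) (fun t _ => hbd t)
    (by
      refine (int_sin hd hb' w).congr (Eventually.of_forall fun t => ?_)
      show deriv b t * Real.sin (w * t) = Real.sin (w * t) * deriv b t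
      ring)
    (by
      refine ((int_cos hc.continuous hb w).const_mul w).congr (Eventually.of_forall fun t => ?_)
      show w * (b t * Real.cos (w * t)) = w * Real.cos (w * t) * b t
      ring)
    (by
      refine (int_sin hc.continuous hb w).congr (Eventually.of_forall fun t => ?_)
      show b t * Real.sin (w * t) = Real.sin (w * t) * b t
      ring)
  unfold cc ss
  rw [← hw]
  have e1 : ∫ t, deriv b t * Real.sin (w * t) = ∫ t, Real.sin (w * t) * deriv b t := by
    congr 1; funext t; ring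
  rw [e1, h, ← integral_const_mul]
  congr 2
  funext t
  ring

end

theorem t_PAR : S_PAR := by
  intro ℓ x hℓ b hc hb
  refine ⟨parseval hℓ hc hb, ?_⟩
  intro hc1 S
  have hd : Continuous (deriv b) := hc1.continuous_deriv le_rfl
  have hb' := deriv_zero hℓ hc1 hb
  have H := parseval hℓ hd hb'
  have h1 := sum_le_hasSum S (fun k _ => by positivity) H
  refine le_trans (le_of_eq (Finset.sum_congr rfl fun k _ => ?_)) h1
  rw [cc_deriv hc1 hb hb' k, ss_deriv hc1 hb hb' k]
  ring

end Pool.Agent.L7h23.SC
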